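import Mathlib

/-!
# Well-ordered sets, closed unbounded sets, and the forcing notion adding a nonreflecting
stationary set of points of cofinality `ω` in the successor of the continuum
-/

set_option autoImplicit false

namespace Pool.Agent.Helper332.NRS

open Cardinal Set

/-- `a` is a limit point: it is not the least point and not a successor. -/
def IsLim {K : Type} [LinearOrder K] (a : K) : Prop :=
  (∃ b, b < a) ∧ ∀ b < a, ∃ c, b < c ∧ c < a

/-- `a` has cofinality `ω`: some sequence of points below `a` is cofinal in `a`. -/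
def CofOmega {K : Type} [LinearOrder K] (a : K) : Prop :=
  ∃ s : ℕ → K, (∀ n, s n < a) ∧ ∀ b < a, ∃ n, b < s n

/-- The part of `C` below `a` is closed and unbounded in `a`. -/
def ClubBelow {K : Type} [LinearOrder K] (a : K) (C : Set K) : Prop :=
  (∀ b < a, ∃ c ∈ C, b < c ∧ c < a) ∧
    ∀ b < a, (∃ x, x < b) → (∀ x < b, ∃ c ∈ C, x < c ∧ c < b) → b ∈ C

/-- `C` is closed and unbounded. -/
def Club {K : Type} [LinearOrder K] (C : Set K) : Prop :=
  (∀ b, ∃ c ∈ C, b < c) ∧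
    ∀ b, (∃ x, x < b) → (∀ x < b, ∃ c ∈ C, x < c ∧ c < b) → b ∈ C

/-- The initial ordinal of the successor cardinal of the continuum, as a well-ordered set. -/
abbrev Kc : Type := (Order.succ (𝔠 : Cardinal.{0})).ord.ToType

/-- The conditions: a point `d` and a set `E` of points of cofinality `ω` below `d` which does not
reflect at any limit point `a ≤ d`. -/
structure Cond where
  d : Kc
  E : Set Kc
  lt : ∀ a ∈ E, a < d
  cof : ∀ a ∈ E, CofOmega a
  nr : ∀ a ≤ d, IsLim a → ∃ C : Set Kc, ClubBelow a C ∧ ∀ c ∈ C, c < a → c ∉ E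

instance : Preorder Cond where
  le q p := p.d ≤ q.d ∧ ∀ a < p.d, (a ∈ q.E ↔ a ∈ p.E)
  le_refl p := ⟨le_rfl, fun _ _ => Iff.rfl⟩
  le_trans r q p h h' := ⟨h'.1.trans h.1, fun a ha =>
    (h.2 a (ha.trans_le h'.1)).trans (h'.2 a ha)⟩

theorem le_def {q p : Cond} : q ≤ p ↔ p.d ≤ q.d ∧ ∀ a < p.d, (a ∈ q.E ↔ a ∈ p.E) := Iff.rfl

/-- `D` is a closed set of points `≤ p.d`, with last point `p.d`, and disjoint from `p.E`. -/
def Good (p : Cond) (D : Set Kc) : Prop :=
  (∀ a ∈ D, a ≤ p.d) ∧ p.d ∈ D ∧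
    (∀ b, (∃ x, x < b) → (∀ x < b, ∃ c ∈ D, x < c ∧ c < b) → b ≤ p.d → b ∈ D) ∧
    ∀ a ∈ D, a ∉ p.E

/-- `(q, D')` extends `(p, D)` -/
def Ext (x y : Cond × Set Kc) : Prop :=
  x.1 ≤ y.1 ∧ ∀ a ≤ y.1.d, (a ∈ x.2 ↔ a ∈ y.2)

end Pool.Agent.Helper332.NRS
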