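import Mathlib
import Pool.Agent.Helper332.NRS.Defs

set_option autoImplicit false

namespace Pool.Agent.Helper332.NRS

open Cardinal Set


theorem mk_Iio_le (a : Kc) : #(Set.Iio a) ≤ 𝔠 :=
  Order.lt_succ_iff.1 (mk_Iio_toType_ord_lt a)

end Pool.Agent.Helper332.NRS
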