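import Mathlib
import Pool.Agent.Helper332.NRS.Defs

set_option autoImplicit false

namespace Pool.Agent.Helper332.NRS

open Cardinal Set


/-- Sets of size at most continuum are strictly bounded in `Kc`. -/
theorem exists_bound (S : Set Kc) (hS : #S ≤ 𝔠) : ∃ a : Kc, ∀ b ∈ S, b < a := by
  by_contra hcon
  push Not at hcon
  have hIic : ∀ b : Kc, #(Set.Iic b) ≤ 𝔠 := by
    intro b
    have h1 : #(Set.Iio b) ≤ 𝔠 := Order.lt_succ_iff.1 (Cardinal.mk_Iio_toType_ord_lt b)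
    rw [← Set.Iio_insert]
    refine (Cardinal.mk_insert_le).trans ?_
    calc #(Set.Iio b) + 1 ≤ 𝔠 + 1 := by gcongr
      _ = 𝔠 := Cardinal.add_one_eq Cardinal.aleph0_le_continuum
  have hU : (Set.univ : Set Kc) = ⋃ b : S, Set.Iic (b : Kc) := by
    ext x
    simp only [Set.mem_univ, Set.mem_iUnion, Set.mem_Iic, true_iff]
    obtain ⟨b, hb, hxb⟩ := hcon x
    exact ⟨⟨b, hb⟩, hxb⟩
  have hc : #Kc = Order.succ 𝔠 := by rw [Cardinal.mk_toType, Cardinal.card_ord]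
  have : Order.succ (𝔠 : Cardinal.{0}) ≤ 𝔠 := by
    calc Order.succ 𝔠 = #Kc := hc.symm
      _ = #(Set.univ : Set Kc) := Cardinal.mk_univ.symm
      _ = #(⋃ b : S, Set.Iic (b : Kc)) := by rw [← hU]
      _ ≤ #S * ⨆ b : S, #(Set.Iic (b : Kc)) := Cardinal.mk_iUnion_le _
      _ ≤ 𝔠 * 𝔠 := mul_le_mul' hS (ciSup_le' fun b => hIic b)
      _ = 𝔠 := Cardinal.continuum_mul_self
  exact absurd (Order.lt_succ (𝔠 : Cardinal.{0})) (not_lt.2 this)

end Pool.Agent.Helper332.NRS
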