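import Mathlib
import Pool.Agent.Helper332.NRS.Defs
import Pool.Agent.Helper332.NRS.P_exists_bound

set_option autoImplicit false

namespace Pool.Agent.Helper332.NRS

open Cardinal Set


/-- Conditions can be lengthened without adding points. -/
theorem exists_longer (p : Cond) (a : Kc) : ∃ q : Cond, q ≤ p ∧ a < q.d ∧ p.d < q.d ∧ q.E = p.E := by
  obtain ⟨d, hd⟩ := exists_bound ({a, p.d} : Set Kc)
    ((Cardinal.mk_le_aleph0_iff.2 (Set.to_countable _)).trans aleph0_le_continuum)
  have had : a < d := hd a (by simp)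
  have hpd : p.d < d := hd p.d (by simp)
  refine ⟨⟨d, p.E, fun x hx => (p.lt x hx).trans hpd, p.cof, ?_⟩, ?_, had, hpd, rfl⟩
  · intro x hxd hx
    by_cases h : x ≤ p.d
    · exact p.nr x h hx
    · have h' : p.d < x := not_le.1 h
      refine ⟨{c | p.d < c}, ⟨?_, ?_⟩, ?_⟩
      · intro b hb
        obtain ⟨c, hc1, hc2⟩ := hx.2 (max b p.d) (max_lt hb h')
        exact ⟨c, lt_of_le_of_lt (le_max_right _ _) hc1, lt_of_le_of_lt (le_max_left _ _) hc1, hc2⟩
      · rintro b hb ⟨y, hy⟩ hbb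
        obtain ⟨c, hc, hyc, hcb⟩ := hbb y hy
        exact lt_trans hc hcb
      · intro c hc _ hcE
        exact lt_asymm hc (p.lt c hcE)
  · exact ⟨hpd.le, fun x _ => Iff.rfl⟩

end Pool.Agent.Helper332.NRS
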