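import Mathlib
import Pool.Agent.Helper332.NRS.Defs
import Pool.Agent.Helper332.NRS.P_exists_bound

set_option autoImplicit false

namespace Pool.Agent.Helper332.NRS

open Cardinal Set


/-- A chain of at most continuum many conditions with witnesses has a lower bound. -/
theorem lb (S : Set (Cond × Set Kc)) (hS : #S ≤ 𝔠) (hne : S.Nonempty)
    (hgood : ∀ x ∈ S, Good x.1 x.2) (hchain : ∀ x ∈ S, ∀ y ∈ S, Ext x y ∨ Ext y x) :
    ∃ z : Cond × Set Kc, Good z.1 z.2 ∧ ∀ x ∈ S, Ext z x := by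
  classical
  by_cases hcase : ∃ z ∈ S, ∀ x ∈ S, x.1.d ≤ z.1.d
  · obtain ⟨z, hz, hmax⟩ := hcase
    refine ⟨z, hgood z hz, fun x hx => ?_⟩
    rcases hchain z hz x hx with h | h
    · exact h
    · have hd : z.1.d = x.1.d := le_antisymm (le_def.1 h.1).1 (hmax x hx)
      refine ⟨le_def.2 ⟨hd.ge, fun c hc => ?_⟩, fun c hc => ?_⟩
      · exact ((le_def.1 h.1).2 c (hd ▸ hc)).symm
      · exact (h.2 c (hd ▸ hc)).symm
  · push Not at hcase
    have hbd : ∃ a : Kc, ∀ x ∈ S, x.1.d < a := by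
      obtain ⟨a, ha⟩ := exists_bound ((fun x : Cond × Set Kc => x.1.d) '' S)
        (Cardinal.mk_image_le.trans hS)
      exact ⟨a, fun x hx => ha _ (Set.mem_image_of_mem _ hx)⟩
    obtain ⟨a, ha, hmin0⟩ :=
      (wellFounded_lt (α := Kc)).has_min {a : Kc | ∀ x ∈ S, x.1.d < a} hbd
    have ha' : ∀ x ∈ S, x.1.d < a := ha
    have hmin : ∀ b < a, ∃ x ∈ S, b < x.1.d := by
      intro b hb
      have h1 : ¬ ∀ x ∈ S, x.1.d < b := fun h => hmin0 b h hb
      push Not at h1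
      obtain ⟨x, hx, hbx⟩ := h1
      obtain ⟨y, hy, hxy⟩ := hcase x hx
      exact ⟨y, hy, hbx.trans_lt hxy⟩
    have cohE : ∀ x ∈ S, ∀ y ∈ S, ∀ c, c < x.1.d → c < y.1.d → (c ∈ x.1.E ↔ c ∈ y.1.E) := by
      intro x hx y hy c hcx hcy
      rcases hchain x hx y hy with h | h
      · exact (le_def.1 h.1).2 c hcy
      · exact ((le_def.1 h.1).2 c hcx).symm
    have cohD : ∀ x ∈ S, ∀ y ∈ S, ∀ c, c ≤ x.1.d → c ≤ y.1.d → (c ∈ x.2 ↔ c ∈ y.2) := by
      intro x hx y hy c hcx hcy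
      rcases hchain x hx y hy with h | h
      · exact h.2 c hcy
      · exact (h.2 c hcx).symm
    have memE : ∀ x ∈ S, ∀ c < x.1.d, ((∃ y ∈ S, c ∈ y.1.E) ↔ c ∈ x.1.E) := by
      intro x hx c hc
      constructor
      · rintro ⟨y, hy, hcy⟩
        exact (cohE x hx y hy c hc (y.1.lt c hcy)).2 hcy
      · intro h
        exact ⟨x, hx, h⟩
    have memD : ∀ x ∈ S, ∀ c ≤ x.1.d, ((∃ y ∈ S, c ∈ y.2) ↔ c ∈ x.2) := by
      intro x hx c hc
      constructor
      · rintro ⟨y, hy, hcy⟩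
        exact (cohD x hx y hy c hc ((hgood y hy).1 c hcy)).2 hcy
      · intro h
        exact ⟨x, hx, h⟩
    have hdisj : ∀ c, (∃ x ∈ S, c ∈ x.2) → ¬ ∃ y ∈ S, c ∈ y.1.E := by
      rintro c ⟨x, hx, hcx⟩ ⟨y, hy, hcy⟩
      have h1 : c < y.1.d := y.1.lt c hcy
      have h2 : c ∈ y.2 := (cohD x hx y hy c ((hgood x hx).1 c hcx) h1.le).1 hcx
      exact (hgood y hy).2.2.2 c h2 hcy
    have hclosed : ∀ b < a, (∃ x, x < b) →
        (∀ x < b, ∃ c, (∃ y ∈ S, c ∈ y.2) ∧ x < c ∧ c < b) → ∃ y ∈ S, b ∈ y.2 := by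
      intro b hb hb0 hlim
      obtain ⟨x, hx, hbx⟩ := hmin b hb
      refine ⟨x, hx, (hgood x hx).2.2.1 b hb0 ?_ hbx.le⟩
      intro x' hx'
      obtain ⟨c, hc, h1, h2⟩ := hlim x' hx'
      exact ⟨c, (memD x hx c (h2.le.trans hbx.le)).1 hc, h1, h2⟩
    let zc : Cond :=
      { d := a
        E := {c | ∃ y ∈ S, c ∈ y.1.E}
        lt := by
          rintro c ⟨y, hy, hcy⟩
          exact (y.1.lt c hcy).trans (ha' y hy)
        cof := by
          rintro c ⟨y, hy, hcy⟩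
          exact y.1.cof c hcy
        nr := by
          intro b hb hlim
          rcases hb.lt_or_eq with hb | hb
          · obtain ⟨x, hx, hbx⟩ := hmin b hb
            obtain ⟨C, hC, hCd⟩ := x.1.nr b hbx.le hlim
            refine ⟨C, hC, fun c hc hcb hcE => hCd c hc hcb ?_⟩
            exact (memE x hx c (hcb.trans hbx)).1 hcE
          · subst hb
            refine ⟨{c | ∃ y ∈ S, c ∈ y.2}, ⟨?_, ?_⟩, fun c hc _ => hdisj c hc⟩
            · intro b' hb'
              obtain ⟨x, hx, hbx⟩ := hmin b' hb'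
              exact ⟨x.1.d, ⟨x, hx, (hgood x hx).2.1⟩, hbx, ha' x hx⟩
            · intro b' hb' h0 hl
              exact hclosed b' hb' h0 hl }
    refine ⟨⟨zc, {c | (∃ y ∈ S, c ∈ y.2) ∨ c = a}⟩, ⟨?_, ?_, ?_, ?_⟩, ?_⟩
    · rintro c (⟨y, hy, hcy⟩ | rfl)
      · exact ((hgood y hy).1 c hcy).trans (ha' y hy).le
      · exact le_rfl
    · exact Or.inr rfl
    · intro b hb0 hlim hb
      rcases (show b ≤ a from hb).lt_or_eq with hb | hb
      · left
        apply hclosed b hb hb0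
        intro x hx
        obtain ⟨c, hc, h1, h2⟩ := hlim x hx
        rcases hc with hc | hc
        · exact ⟨c, hc, h1, h2⟩
        · exact absurd (hc ▸ h2.trans hb) (lt_irrefl _)
      · right; exact hb
    · rintro c (hc | rfl) hcE
      · exact hdisj c hc hcE
      · obtain ⟨y, hy, hcy⟩ := hcE
        exact lt_irrefl _ ((y.1.lt _ hcy).trans (ha' y hy))
    · intro x hx
      refine ⟨le_def.2 ⟨(ha' x hx).le, fun c hc => memE x hx c hc⟩, fun c hc => ?_⟩
      rw [← memD x hx c hc]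
      constructor
      · rintro (h | h)
        · exact h
        · exact absurd (h ▸ hc) (not_le_of_gt (ha' x hx))
      · intro h
        exact Or.inl h

end Pool.Agent.Helper332.NRS
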