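import Mathlib
import Pool.Agent.Helper332.NRS.Defs
import Pool.Agent.Helper332.NRS.P_exists_longer
import Pool.Agent.Helper332.NRS.P_lb

set_option autoImplicit false

namespace Pool.Agent.Helper332.NRS

open Cardinal Set


theorem dist_ext_refl (x : Cond × Set Kc) : Ext x x := ⟨le_rfl, fun _ _ => Iff.rfl⟩

theorem dist_ext_trans {x y z : Cond × Set Kc} (h : Ext x y) (h' : Ext y z) : Ext x z :=
  ⟨h.1.trans h'.1, fun a ha => (h.2 a (ha.trans h'.1.1)).trans (h'.2 a ha)⟩

theorem dist_good_base (p : Cond) : Good p {p.d} := by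
  refine ⟨fun a ha => ?_, rfl, fun b hb h hbd => ?_, fun a ha => ?_⟩
  · rw [mem_singleton_iff.1 ha]
  · exfalso
    obtain ⟨x, hx⟩ := hb
    obtain ⟨c, hc, _, hcb⟩ := h x hx
    rw [mem_singleton_iff.1 hc] at hcb
    exact absurd hcb (not_lt.2 hbd)
  · rw [mem_singleton_iff.1 ha]
    intro h
    exact lt_irrefl _ (p.lt _ h)

theorem dist_step {J : Type} (D : J → Set Cond) (p : Cond)
    (hd : ∀ j, ∀ r ≤ p, ∃ q ≤ r, q ∈ D j) (j : J) (r : Cond × Set Kc) (hr : Good r.1 r.2)
    (hrp : r.1 ≤ p) : ∃ y : Cond × Set Kc, Good y.1 y.2 ∧ y.1 ∈ D j ∧ Ext y r := by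
  obtain ⟨r', hr'1, hr'2, -, hr'3⟩ := exists_longer r.1 r.1.d
  obtain ⟨q, hq1, hq2⟩ := hd j r' (hr'1.trans hrp)
  have hdq : r.1.d < q.d := lt_of_lt_of_le hr'2 hq1.1
  obtain ⟨g1, g2, g3, g4⟩ := hr
  refine ⟨(q, insert q.d r.2), ⟨fun a ha => ?_, mem_insert _ _, fun b hb h hbd => ?_,
    fun a ha => ?_⟩, hq2, ⟨hq1.trans hr'1, fun a ha => ?_⟩⟩
  · rcases mem_insert_iff.1 ha with rfl | ha
    · exact le_rfl
    · exact (g1 a ha).trans hdq.le
  · have h' : ∀ x < b, ∃ c ∈ r.2, x < c ∧ c < b := by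
      intro x hx
      obtain ⟨c, hc, h1, h2⟩ := h x hx
      rcases mem_insert_iff.1 hc with rfl | hc
      · exact absurd h2 (not_lt.2 hbd)
      · exact ⟨c, hc, h1, h2⟩
    refine mem_insert_of_mem _ (g3 b hb h' ?_)
    by_contra hcon
    obtain ⟨c, hc, h1, -⟩ := h' r.1.d (not_le.1 hcon)
    exact absurd h1 (not_lt.2 (g1 c hc))
  · rcases mem_insert_iff.1 ha with rfl | ha
    · intro h
      exact lt_irrefl _ (q.lt _ h)
    · intro h
      have h1 := (hq1.2 a (lt_of_le_of_lt (g1 a ha) hr'2)).1 h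
      rw [hr'3] at h1
      exact g4 a ha h1
  · constructor
    · intro h
      rcases mem_insert_iff.1 h with rfl | h
      · exact absurd hdq (not_lt.2 ha)
      · exact h
    · exact fun h => mem_insert_of_mem _ h

/-- Continuum many dense requirements can be met at once. -/
theorem dist {J : Type} (hJ : #J ≤ 𝔠) (D : J → Set Cond) (hD : ∀ j, ∀ p ∈ D j, ∀ q ≤ p, q ∈ D j)
    (p : Cond) (hd : ∀ j, ∀ r ≤ p, ∃ q ≤ r, q ∈ D j) : ∃ q ≤ p, ∀ j, q ∈ D j := by
  classical
  have wf : WellFounded (WellOrderingRel : J → J → Prop) := IsWellFounded.wf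
  let Pp : (j : J) → ((i : J) → WellOrderingRel i j → Cond × Set Kc) → Cond × Set Kc → Prop :=
    fun j prev y => Good y.1 y.2 ∧ y.1 ∈ D j ∧ Ext y (p, {p.d}) ∧
      ∀ i (hi : WellOrderingRel i j), Ext y (prev i hi)
  let F : (j : J) → ((i : J) → WellOrderingRel i j → Cond × Set Kc) → Cond × Set Kc :=
    fun j prev => if h : ∃ y, Pp j prev y then Classical.choose h else (p, {p.d})
  let x : J → Cond × Set Kc := wf.fix F
  have hx : ∀ j, x j = F j (fun i _ => x i) := fun j => wf.fix_eq F j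
  have hcard : ∀ T : Set J, #(insert (p, {p.d}) (x '' T) : Set (Cond × Set Kc)) ≤ 𝔠 := by
    intro T
    calc #(insert (p, {p.d}) (x '' T) : Set (Cond × Set Kc)) ≤ #(x '' T) + 1 := mk_insert_le
      _ ≤ #T + 1 := by gcongr; exact mk_image_le
      _ ≤ #J + 1 := by gcongr; exact mk_set_le T
      _ ≤ 𝔠 + 1 := by gcongr
      _ = 𝔠 := add_one_eq aleph0_le_continuum
  -- lower bounds for initial parts
  have hlb : ∀ T : Set J, (∀ j ∈ T, Pp j (fun i _ => x i) (x j)) →
      ∃ z : Cond × Set Kc, Good z.1 z.2 ∧ Ext z (p, {p.d}) ∧ ∀ j ∈ T, Ext z (x j) := by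
    intro T hT
    obtain ⟨z, hz1, hz2⟩ := lb (insert (p, {p.d}) (x '' T)) (hcard T) ⟨_, mem_insert _ _⟩ (by
      intro y hy
      rcases mem_insert_iff.1 hy with rfl | ⟨j, hj, rfl⟩
      · exact dist_good_base p
      · exact (hT j hj).1) (by
      intro y hy y' hy'
      rcases mem_insert_iff.1 hy with rfl | ⟨j, hj, rfl⟩
      · rcases mem_insert_iff.1 hy' with rfl | ⟨j', hj', rfl⟩
        · exact Or.inl (dist_ext_refl _)
        · exact Or.inr (hT j' hj').2.2.1
      · rcases mem_insert_iff.1 hy' with rfl | ⟨j', hj', rfl⟩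
        · exact Or.inl (hT j hj).2.2.1
        · rcases trichotomous_of (WellOrderingRel : J → J → Prop) j j' with h | h | h
          · exact Or.inr ((hT j' hj').2.2.2 j h)
          · rw [h]; exact Or.inl (dist_ext_refl _)
          · exact Or.inl ((hT j hj).2.2.2 j' h))
    exact ⟨z, hz1, hz2 _ (mem_insert _ _), fun j hj =>
      hz2 _ (mem_insert_of_mem _ (mem_image_of_mem x hj))⟩
  have claim : ∀ j, Pp j (fun i _ => x i) (x j) := by
    intro j
    induction j using wf.induction with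
    | _ j ih =>
      have hex : ∃ y, Pp j (fun i _ => x i) y := by
        obtain ⟨z, hz1, hz2, hz3⟩ := hlb {i | WellOrderingRel i j} (fun i hi => ih i hi)
        obtain ⟨y, hy1, hy2, hy3⟩ := dist_step D p hd j z hz1 hz2.1
        exact ⟨y, hy1, hy2, dist_ext_trans hy3 hz2, fun i hi => dist_ext_trans hy3 (hz3 i hi)⟩
      have h1 : x j = Classical.choose hex := by
        rw [hx j]
        exact dif_pos hex
      rw [h1]
      exact Classical.choose_spec hex
  obtain ⟨z, hz1, hz2, hz3⟩ := hlb univ (fun j _ => claim j)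
  exact ⟨z.1, hz2.1, fun j => hD j _ (claim j).2.1 _ (hz3 j (mem_univ j)).1⟩

end Pool.Agent.Helper332.NRS
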