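import Mathlib
import Pool.Agent.Helper332.NRS.Defs
import Pool.Agent.Helper332.NRS.P_exists_bound

set_option autoImplicit false

namespace Pool.Agent.Helper332.NRS

open Cardinal Set


/-- The point `p.d` can be added if it has cofinality `ω`. -/
theorem exists_add (p : Cond) (h : CofOmega p.d) :
    ∃ q : Cond, q ≤ p ∧ p.d < q.d ∧ p.d ∈ q.E := by
  have hne : ({x | p.d < x} : Set Kc).Nonempty := by
    obtain ⟨a, ha⟩ := exists_bound {p.d} (by
      rw [mk_singleton]
      exact (nat_lt_continuum 1).le.trans' (by simp))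
    exact ⟨a, ha p.d rfl⟩
  obtain ⟨d', hd', hmin⟩ := WellFounded.has_min (wellFounded_lt (α := Kc)) _ hne
  have hd'' : p.d < d' := hd'
  refine ⟨⟨d', insert p.d p.E, ?_, ?_, ?_⟩, ⟨hd''.le, ?_⟩, hd'', mem_insert _ _⟩
  · intro a ha
    rcases ha with rfl | ha
    · exact hd''
    · exact (p.lt a ha).trans hd''
  · intro a ha
    rcases ha with rfl | ha
    · exact h
    · exact p.cof a ha
  · intro x hx hlim
    have hxd : x ≤ p.d := by
      rcases hx.lt_or_eq with h1 | rfl
      · exact not_lt.1 fun h2 => hmin x h2 h1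
      · obtain ⟨c, hc1, hc2⟩ := hlim.2 p.d hd''
        exact absurd hc2 (hmin c hc1)
    obtain ⟨C, hC1, hC2⟩ := p.nr x hxd hlim
    refine ⟨C, hC1, fun c hc hcx hcE => ?_⟩
    rcases hcE with rfl | hcE
    · exact absurd hcx (not_lt.2 hxd)
    · exact hC2 c hc hcx hcE
  · intro a ha
    constructor
    · rintro (rfl | h1)
      · exact absurd ha (lt_irrefl _)
      · exact h1
    · exact fun h1 => mem_insert_of_mem _ h1

end Pool.Agent.Helper332.NRS
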