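import Mathlib
import Pool.Agent.Helper332.NRS.Defs

set_option autoImplicit false

namespace Pool.Agent.Helper332.NRS

open Cardinal Set


/-- A point of cofinality `ω` has a closed unbounded set of non-limit points below it. -/
theorem club_cofOmega {K : Type} [LinearOrder K] [WellFoundedLT K] (a : K) (ha : CofOmega a) :
    ∃ C : Set K, ClubBelow a C ∧ ∀ c ∈ C, ¬ IsLim c := by
  classical
  obtain ⟨s, hs, hcof⟩ := ha
  obtain ⟨t, ht0, hts⟩ : ∃ t : ℕ → K, t 0 = s 0 ∧ ∀ n, t (n + 1) = max (t n) (s (n + 1)) :=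
    ⟨fun n => Nat.rec (s 0) (fun n x => max x (s (n + 1))) n, rfl, fun n => rfl⟩
  have hta : ∀ n, t n < a := by
    intro n
    induction n with
    | zero => rw [ht0]; exact hs 0
    | succ n ih => rw [hts]; exact max_lt ih (hs _)
  have hst : ∀ n, s n ≤ t n := by
    intro n
    cases n with
    | zero => rw [ht0]
    | succ n => rw [hts]; exact le_max_right _ _
  have hmono : Monotone t := monotone_nat_of_le_succ fun n => by
    rw [hts]; exact le_max_left _ _
  have hex : ∀ n, ∃ u : K, t n < u ∧ ∀ x, t n < x → u ≤ x := by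
    intro n
    have hne : {x : K | t n < x}.Nonempty := ⟨a, hta n⟩
    refine ⟨wellFounded_lt.min {x : K | t n < x} hne,
      wellFounded_lt.min_mem {x : K | t n < x} hne, fun x hx => ?_⟩
    exact not_lt.1 (wellFounded_lt.not_lt_min {x : K | t n < x} hx)
  choose u hu humin using hex
  have hua : ∀ n, u n < a := by
    intro n
    obtain ⟨m, hm⟩ := hcof (t n) (hta n)
    exact lt_of_le_of_lt (humin n _ hm) (hs m)
  refine ⟨Set.range u, ⟨?_, ?_⟩, ?_⟩
  · intro b hb
    obtain ⟨n, hn⟩ := hcof b hb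
    exact ⟨u n, ⟨n, rfl⟩, hn.trans_le ((hst n).trans (hu n).le), hua n⟩
  · rintro b hb ⟨x, hx⟩ h
    exfalso
    obtain ⟨n, hn⟩ := hcof b hb
    have hlt : ∀ m, u m < b → m < n := by
      intro m hm
      by_contra hmn
      push Not at hmn
      have h1 : b < u m := hn.trans_le ((hst n).trans ((hmono hmn).trans (hu m).le))
      exact lt_asymm h1 hm
    have hT : ((Finset.range n).filter (fun m => u m < b)).Nonempty := by
      obtain ⟨c, ⟨m, rfl⟩, -, hcb⟩ := h x hx
      exact ⟨m, Finset.mem_filter.2 ⟨Finset.mem_range.2 (hlt m hcb), hcb⟩⟩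
    obtain ⟨m0, hm0, hmax⟩ := Finset.exists_max_image _ u hT
    obtain ⟨c, ⟨m, rfl⟩, h1, h2⟩ := h (u m0) (Finset.mem_filter.1 hm0).2
    exact absurd (hmax m (Finset.mem_filter.2 ⟨Finset.mem_range.2 (hlt m h2), h2⟩))
      (not_le.2 h1)
  · rintro c ⟨n, rfl⟩ ⟨-, h⟩
    obtain ⟨x, h1, h2⟩ := h (t n) (hu n)
    exact absurd (humin n x h1) (not_le.2 h2)

end Pool.Agent.Helper332.NRS
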