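import Mathlib
import Pool.Agent.Helper332.NRS.Defs
import Pool.Agent.Helper332.NRS.P_exists_bound
import Pool.Agent.Helper332.NRS.P_club_cofOmega

set_option autoImplicit false

namespace Pool.Agent.Helper332.NRS

open Cardinal Set


/-- A decreasing sequence of conditions of strictly increasing length has a lower bound whose
length is the supremum of the lengths. -/
theorem exists_lower (s : ℕ → Cond) (hs : ∀ n, s (n + 1) ≤ s n) (hd : ∀ n, (s n).d < (s (n + 1)).d) :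
    ∃ q : Cond, (∀ n, q ≤ s n) ∧ (∀ n, (s n).d < q.d) ∧ ∀ b < q.d, ∃ n, b < (s n).d := by
  have hcard : #(Set.range fun n => (s n).d) ≤ 𝔠 :=
    (mk_range_le).trans ((mk_nat).le.trans aleph0_le_continuum)
  obtain ⟨a, ha⟩ := exists_bound _ hcard
  have hne : {x : Kc | ∀ n, (s n).d < x}.Nonempty := ⟨a, fun n => ha _ ⟨n, rfl⟩⟩
  obtain ⟨d, hdef⟩ : ∃ d, d = (wellFounded_lt (α := Kc)).min _ hne := ⟨_, rfl⟩
  have hlt : ∀ n, (s n).d < d := by
    rw [hdef]
    exact (wellFounded_lt (α := Kc)).min_mem _ hne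
  have hmin : ∀ b < d, ∃ n, b < (s n).d := by
    intro b hb
    by_contra hcon
    push Not at hcon
    have hb2 : b ∈ {x : Kc | ∀ n, (s n).d < x} := fun n => (hd n).trans_le (hcon (n + 1))
    rw [hdef] at hb
    exact (wellFounded_lt (α := Kc)).not_lt_min _ hb2 hb
  have hanti : ∀ m n, m ≤ n → s n ≤ s m := fun m n h => antitone_nat_of_succ_le hs h
  have hcoh : ∀ m, ∀ b < (s m).d, ((∃ n, b ∈ (s n).E) ↔ b ∈ (s m).E) := by
    intro m b hb
    constructor
    · rintro ⟨n, hn⟩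
      rcases le_total n m with h | h
      · exact ((hanti n m h).2 b ((s n).lt b hn)).2 hn
      · exact ((hanti m n h).2 b hb).1 hn
    · exact fun h => ⟨m, h⟩
  refine ⟨⟨d, {b | ∃ n, b ∈ (s n).E}, ?_, ?_, ?_⟩, ?_, hlt, hmin⟩
  · rintro b ⟨n, hn⟩
    exact ((s n).lt b hn).trans (hlt n)
  · rintro b ⟨n, hn⟩
    exact (s n).cof b hn
  · intro x hx hlim
    rcases hx.lt_or_eq with h | h
    · obtain ⟨n, hn⟩ := hmin x h
      obtain ⟨C, hC, hCE⟩ := (s n).nr x hn.le hlim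
      refine ⟨C, hC, fun c hc hcx hcE => hCE c hc hcx ?_⟩
      exact (hcoh n c (hcx.trans hn)).1 hcE
    · rw [h]
      obtain ⟨C, hC, hCl⟩ := club_cofOmega d ⟨fun n => (s n).d, hlt, hmin⟩
      refine ⟨C, hC, fun c hc _ hcE => hCl c hc ?_⟩
      obtain ⟨n, hn⟩ := hcE
      obtain ⟨t, ht1, ht2⟩ := (s n).cof c hn
      refine ⟨⟨t 0, ht1 0⟩, fun b hb => ?_⟩
      obtain ⟨k, hk⟩ := ht2 b hb
      exact ⟨t k, hk, ht1 k⟩
  · intro n
    exact ⟨(hlt n).le, fun b hb => hcoh n b hb⟩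

end Pool.Agent.Helper332.NRS
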