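import Mathlib
import Pool.Agent.Helper332.NRS.Defs
import Pool.Agent.Helper332.NRS.P_exists_lower

set_option autoImplicit false

namespace Pool.Agent.Helper332.NRS

open Cardinal Set


theorem sigma_closed (s : ℕ → Cond) (hs : ∀ n, s (n + 1) ≤ s n) : ∃ q : Cond, ∀ n, q ≤ s n := by
  have hanti : Antitone s := antitone_nat_of_succ_le hs
  by_cases h : ∃ n, ∀ m, (s m).d ≤ (s n).d
  · obtain ⟨n, hn⟩ := h
    refine ⟨s n, fun m => ?_⟩
    rcases le_total m n with hmn | hnm
    · exact hanti hmn
    · have h1 : s m ≤ s n := hanti hnm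
      rw [le_def] at h1 ⊢
      exact ⟨hn m, fun a ha => (h1.2 a (ha.trans_le (hn m))).symm⟩
  · push Not at h
    choose f hf using h
    have hφ : ∀ k, (s (f^[k] 0)).d < (s (f^[k+1] 0)).d := by
      intro k
      rw [Function.iterate_succ_apply']
      exact hf _
    have hmono : StrictMono (fun k => f^[k] 0) := by
      refine strictMono_nat_of_lt_succ fun k => ?_
      by_contra hcon
      push Not at hcon
      have h2 := hanti hcon
      exact absurd (le_def.1 h2).1 (not_le.2 (hφ k))
    obtain ⟨q, hq, -, -⟩ := exists_lower (fun k => s (f^[k] 0))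
      (fun k => hanti (hmono (Nat.lt_succ_self k)).le) hφ
    exact ⟨q, fun n => (hq n).trans (hanti (hmono.id_le n))⟩

end Pool.Agent.Helper332.NRS
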