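import Mathlib
import Pool.Agent.Helper292.ForceCH
import Pool.Agent.Helper332.NRS.P_exists_bound
import Pool.Agent.Helper332.NRS.P_mk_Iio_le
import Pool.Agent.Helper332.NRS.P_exists_longer
import Pool.Agent.Helper332.NRS.P_exists_add
import Pool.Agent.Helper332.NRS.P_exists_lower
import Pool.Agent.Helper332.NRS.P_dist
import Pool.Agent.Helper332.NRS.P_sigma_closed

/-!
# Forcing a nonreflecting stationary set of points of cofinality `ω` in the successor of the
continuum
-/

set_option autoImplicit false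

namespace Pool.Agent.Helper332.NRS

open Cardinal Set
open Pool.Agent.Helper292.ForceCH (fnot fand fall fimp fiff fex fground meets IsFun mem_fex mem_fimp
  down_fall down_fex down_meets fimp_of fiff_of_decided decide_countable meets_of_dense)

section

variable (P : Type) [Preorder P]

/-- The set named by `C` is closed and unbounded in `a` (`a` a point of `Kc`). -/
def ClubBelowName {P : Type} [Preorder P] (a : Kc) (C : Kc → Set P) : Set P :=
  fand (fall fun b : Kc => fall fun _ : b < a => fex fun c : Kc =>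
      fand (meets (C c)) (fground (b < c ∧ c < a)))
    (fall fun b : Kc => fall fun _ : b < a => fall fun _ : (∃ x, x < b) =>
      fimp (fall fun x : Kc => fall fun _ : x < b => fex fun c : Kc =>
        fand (meets (C c)) (fground (x < c ∧ c < b))) (meets (C b)))

/-- The set named by `C` is closed and unbounded in `Kc`. -/
def ClubName {P : Type} [Preorder P] (C : Kc → Set P) : Set P :=
  fand (fall fun b : Kc => fex fun c : Kc => fand (meets (C c)) (fground (b < c)))
    (fall fun b : Kc => fall fun _ : (∃ x, x < b) =>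
      fimp (fall fun x : Kc => fall fun _ : x < b => fex fun c : Kc =>
        fand (meets (C c)) (fground (x < c ∧ c < b))) (meets (C b)))

/-- The forcing sentence: (1) there is a function from the set `Set ℕ` of the ground model onto
the power set of `ℕ`; (2) every function from `Set ℕ` to `Kc` is bounded, and every proper initial
segment of `Kc` is covered by the values of such a function; (3) there is a set `E ⊆ Kc` of points
of cofinality `ω` which is nonreflecting: every limit point `a` has a closed unbounded subset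
disjoint from `E`; and stationary: every closed unbounded subset of `Kc` meets `E`. -/
def NRSHolds : Set P :=
  fand
    (fex fun e : Set ℕ → ℕ → Set P => fall fun x : ℕ → Set P => fex fun j : Set ℕ =>
      fall fun n : ℕ => fiff (meets (x n)) (meets (e j n)))
    (fand
      (fand
        (fall fun F : Set ℕ → Kc → Set P => fimp (IsFun F) (fex fun b : Kc =>
          fall fun j : Set ℕ => fall fun c : Kc => fimp (meets (F j c)) (fground (c < b))))
        (fall fun a : Kc => fground (∃ F : Set ℕ → Kc, ∀ b < a, ∃ j, F j = b)))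
      (fex fun E : Kc → Set P =>
        fand (fall fun a : Kc => fimp (meets (E a)) (fground (CofOmega a)))
          (fand
            (fall fun a : Kc => fall fun _ : IsLim a => fex fun C : Kc → Set P =>
              fand (ClubBelowName a C)
                (fall fun c : Kc => fall fun _ : c < a => fimp (meets (C c)) (fnot (meets (E c)))))
            (fall fun C : Kc → Set P => fimp (ClubName C)
              (fex fun a : Kc => fand (meets (C a)) (meets (E a)))))))

end

/-- the name of the generic set -/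
def gen (a : Kc) : Set Cond := {p | a ∈ p.E}

/-- the name of a ground model set -/
def chk {P : Type} {X : Type} (S : Set X) (x : X) : Set P := {_p | x ∈ S}

theorem mem_meets_chk {P : Type} [Preorder P] {X : Type} {S : Set X} {x : X} (h : x ∈ S) (p : P) :
    p ∈ meets (chk S x : Set P) := fun q _ => ⟨q, le_rfl, q, h, le_rfl⟩

theorem of_meets_chk {P : Type} [Preorder P] {X : Type} {S : Set X} {x : X} {p : P}
    (h : p ∈ meets (chk S x : Set P)) : x ∈ S := by
  obtain ⟨_, _, _, h1, _⟩ := h p le_rfl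
  exact h1

theorem mem_meets_gen {a : Kc} {p : Cond} (h : a ∈ p.E) : p ∈ meets (gen a) := by
  intro q hq
  exact ⟨q, le_rfl, p, h, hq⟩

theorem of_meets_gen {a : Kc} {p : Cond} (ha : a < p.d) (h : p ∈ meets (gen a)) : a ∈ p.E := by
  obtain ⟨r, hr, s, hs, hrs⟩ := h p le_rfl
  have h1 : a ∈ r.E := (hrs.2 a (s.lt a hs)).2 hs
  exact (hr.2 a ha).1 h1

theorem reals (p : Cond) :
    p ∈ (fex fun e : Set ℕ → ℕ → Set Cond => fall fun x : ℕ → Set Cond => fex fun j : Set ℕ =>
      fall fun n : ℕ => fiff (meets (x n)) (meets (e j n))) := by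
  refine mem_fex.2 fun q _ => ⟨q, le_rfl, fun j n => chk j n, fun x => mem_fex.2 fun r hr => ?_⟩
  obtain ⟨t, ht, h1⟩ := decide_countable (P := Cond) sigma_closed (fun n : ℕ => meets (x n))
    (fun _ => down_meets _) r
  refine ⟨t, ht, {n | t ∈ meets (x n)}, fun n => ?_⟩
  refine fiff_of_decided (down_meets _) (down_meets _) ?_
  rcases h1 n with h2 | h2
  · exact Or.inl ⟨h2, mem_meets_chk h2 _⟩
  · refine Or.inr ⟨h2, fun u hu h3 => ?_⟩
    exact h2 t le_rfl (of_meets_chk h3)

theorem bounded (p : Cond) :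
    p ∈ (fall fun F : Set ℕ → Kc → Set Cond => fimp (IsFun F) (fex fun b : Kc =>
          fall fun j : Set ℕ => fall fun c : Kc => fimp (meets (F j c)) (fground (c < b)))) := by
  intro F
  refine fimp_of fun q _ hF => ?_
  refine mem_fex.2 fun r hr => ?_
  have hF1 := hF.1
  have hF2 := hF.2
  obtain ⟨t, ht, h1⟩ := dist (J := Set ℕ) (by simp) (fun j => {t | ∃ b, t ∈ meets (F j b)})
    (fun j u ⟨b, hb⟩ v hv => ⟨b, down_meets _ _ hb _ hv⟩) r (by
      intro j u hu
      obtain ⟨v, hv, b, hb⟩ := mem_fex.1 (hF1 j) u (hu.trans hr)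
      exact ⟨v, hv, b, hb⟩)
  choose f hf using h1
  obtain ⟨B, hB⟩ := exists_bound (Set.range f) (by
    refine mk_range_le.trans ?_
    simp)
  refine ⟨t, ht, B, fun j c => mem_fimp.2 fun u hu hc => ?_⟩
  obtain ⟨v, hv, h2⟩ := mem_fimp.1 (hF2 j (f j) c) u (hu.trans (ht.trans hr))
    ⟨down_meets _ _ (hf j) _ hu, hc⟩
  have h3 : f j = c := h2
  exact ⟨v, hv, by
    change c < B
    rw [← h3]
    exact hB _ ⟨j, rfl⟩⟩

theorem initial (a : Kc) : ∃ F : Set ℕ → Kc, ∀ b < a, ∃ j, F j = b := by
  classical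
  have h := mk_Iio_le a
  have h1 : #(Set.Iio a) ≤ #(Set ℕ) := by simpa using h
  obtain ⟨φ⟩ := Cardinal.le_def _ _ |>.1 h1
  refine ⟨fun j => if h : ∃ b, φ b = j then (h.choose : Kc) else a, fun b hb => ?_⟩
  have hb' : b ∈ Set.Iio a := hb
  refine ⟨φ ⟨b, hb'⟩, ?_⟩
  have h2 : ∃ b', φ b' = φ ⟨b, hb'⟩ := ⟨_, rfl⟩
  have h3 := φ.injective h2.choose_spec
  have h4 : (if h : ∃ b', φ b' = φ ⟨b, hb'⟩ then (h.choose : Kc) else a) = (h2.choose : Kc) :=
    dif_pos h2
  exact h4.trans (congrArg Subtype.val h3)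

theorem nonrefl (a : Kc) (ha : IsLim a) (p : Cond) :
    p ∈ (fex fun C : Kc → Set Cond => fand (ClubBelowName a C)
      (fall fun c : Kc => fall fun _ : c < a => fimp (meets (C c)) (fnot (meets (gen c))))) := by
  refine mem_fex.2 fun q _ => ?_
  obtain ⟨r, hr, har, _, _⟩ := exists_longer q a
  obtain ⟨C, hC, hCE⟩ := r.nr a har.le ha
  refine ⟨r, hr, fun c => chk C c, ⟨?_, ?_⟩, ?_⟩
  · intro b hb
    obtain ⟨c, hc, h1⟩ := hC.1 b hb
    exact mem_fex.2 fun u _ => ⟨u, le_rfl, c, mem_meets_chk hc _, h1⟩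
  · intro b hb hx
    refine fimp_of fun u _ h1 => mem_meets_chk (hC.2 b hb hx fun x hx' => ?_) _
    obtain ⟨v, _, c, h2, h3⟩ := mem_fex.1 (h1 x hx') u le_rfl
    exact ⟨c, of_meets_chk h2, h3⟩
  · intro c hc
    refine fimp_of fun u hu h1 v hv h2 => ?_
    have h3 : c ∉ r.E := hCE c (of_meets_chk h1) hc
    have h4 : c ∈ v.E := of_meets_gen ((hc.trans har).trans_le (hv.trans hu).1) h2
    exact h3 (((hv.trans hu).2 c (hc.trans har)).1 h4)

theorem stationary (p : Cond) (C : Kc → Set Cond) (hC : p ∈ ClubName C) :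
    ∃ q ≤ p, ∃ a : Kc, q ∈ meets (C a) ∧ q ∈ meets (gen a) := by
  classical
  have step : ∀ t ≤ p, ∃ t' ≤ t, t.d < t'.d ∧ ∃ c, t.d < c ∧ c < t'.d ∧ t' ∈ meets (C c) := by
    intro t ht
    obtain ⟨t1, ht1, c, hc, h1⟩ := mem_fex.1 (hC.1 t.d) t ht
    have h1 : t.d < c := h1
    obtain ⟨t2, ht2, h2, h3, _⟩ := exists_longer t1 c
    exact ⟨t2, ht2.trans ht1, ht1.1.trans_lt h3, c, h1, h2, down_meets _ _ hc _ ht2⟩
  choose f hf h1 c hc1 hc2 hc3 using step
  let s : ℕ → {t : Cond // t ≤ p} := fun n => Nat.rec ⟨p, le_rfl⟩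
    (fun _ t => ⟨f t.1 t.2, (hf t.1 t.2).trans t.2⟩) n
  obtain ⟨q, hq, hq1, hq2⟩ := exists_lower (fun n => (s n).1) (fun n => hf _ (s n).2)
    (fun n => h1 _ (s n).2)
  have hcof : CofOmega q.d := ⟨fun n => (s n).1.d, hq1, hq2⟩
  obtain ⟨r, hr, hr1, hr2⟩ := exists_add q hcof
  refine ⟨r, hr.trans ((hq 0).trans (s 0).2), q.d, ?_, mem_meets_gen hr2⟩
  have h7 : r ∈ (fall fun x : Kc => fall fun _ : x < q.d => fex fun c : Kc =>
        fand (meets (C c)) (fground (x < c ∧ c < q.d))) := by
    intro x hx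
    obtain ⟨n, hn⟩ := hq2 x hx
    refine mem_fex.2 fun u hu => ⟨u, le_rfl, c _ (s n).2, ?_, ?_, ?_⟩
    · exact down_meets _ _ (hc3 _ (s n).2) _ (hu.trans (hr.trans (hq (n + 1))))
    · exact hn.trans (hc1 _ (s n).2)
    · exact (hc2 _ (s n).2).trans (hq1 (n + 1))
  refine meets_of_dense fun v hv => ?_
  exact mem_fimp.1 (hC.2 q.d ⟨_, hq1 0⟩) v
    (hv.trans (hr.trans ((hq 0).trans (s 0).2)))
    (down_fall (fun _ => down_fall fun _ => down_fex _) _ h7 _ hv)

theorem nrsHolds (p : Cond) : p ∈ NRSHolds Cond := by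
  refine ⟨reals p, ⟨bounded p, fun a => initial a⟩, mem_fex.2 fun q _ => ⟨q, le_rfl, gen, ?_, ?_, ?_⟩⟩
  · intro a
    refine fimp_of fun u _ h => ?_
    obtain ⟨r, _, s, hs, _⟩ := h u le_rfl
    exact s.cof a hs
  · intro a ha
    exact nonrefl a ha q
  · intro C
    refine mem_fimp.2 fun u _ hC => ?_
    obtain ⟨v, hv, a, h1, h2⟩ := stationary u C hC
    exact ⟨v, hv, mem_fex.2 fun w hw => ⟨w, le_rfl, a, down_meets _ _ h1 _ hw,
      down_meets _ _ h2 _ hw⟩⟩

instance : Nonempty Cond := by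
  have hK : Nonempty Kc := by
    rw [← mk_ne_zero_iff, mk_toType, card_ord]
    exact (Cardinal.succ_pos _).ne'
  have h : (Set.univ : Set Kc).Nonempty := Set.univ_nonempty
  have hwf := (wellFounded_lt (α := Kc))
  refine ⟨⟨hwf.min Set.univ h, ∅, by simp, by simp, ?_⟩⟩
  intro a ha hl
  obtain ⟨b, hb⟩ := hl.1
  exact absurd (hb.trans_le ha) (hwf.not_lt_min (s := Set.univ) (Set.mem_univ b))

/-- There is a forcing notion which forces the sentence `NRSHolds`. -/
theorem exists_forcing : ∃ (P : Type) (_ : Preorder P), Nonempty P ∧ ∀ p : P, p ∈ NRSHolds P :=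
  ⟨Cond, inferInstance, inferInstance, nrsHolds⟩

end Pool.Agent.Helper332.NRS
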