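import Mathlib
import Pool.Agent.Helper332.SAD.SpaceDefs

set_option autoImplicit false

namespace Pool.Agent.Helper332.SADSpace

open Cardinal Set Topology


/-- The closure of a set of points below `a` consists of points below or at `a`. -/
theorem closed_initial {K : Type} [LinearOrder K] (E : Set K) (L : E → Set K)
    (hfin : ∀ x : E, ∀ c < (x : K), {b | b ∈ L x ∧ b ≤ c}.Finite) (a : K) (A : Set (Psi L))
    (hA : (∀ b, Psi.base L b ∈ A → b ≤ a) ∧ ∀ x : E, Psi.pt L x ∈ A → (x : K) ≤ a) (x : E)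
    (hx : Psi.pt L x ∈ closure A) : (x : K) ≤ a := by
  by_contra hcon
  rw [not_le] at hcon
  obtain ⟨U, hU⟩ : ∃ U : Set (Psi L),
      U = insert (Psi.pt L x) (Psi.base L '' {b | b ∈ L x ∧ a < b}) := ⟨_, rfl⟩
  have hbU : ∀ b, Psi.base L b ∈ U → b ∈ L x ∧ a < b := by
    intro b hb
    rw [hU] at hb
    rcases hb with hb | ⟨b', hb', e⟩
    · exact absurd hb (psi_base_ne_pt L b x)
    · rw [psi_base_inj] at e
      rw [← e]
      exact hb'
  have hpU : ∀ i, Psi.pt L i ∈ U → i = x := by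
    intro i hi
    rw [hU] at hi
    rcases hi with hi | ⟨b', -, e⟩
    · rwa [psi_pt_inj] at hi
    · exact absurd e (psi_base_ne_pt L b' i)
  have hxU : Psi.pt L x ∈ U := by
    rw [hU]
    exact Or.inl rfl
  have hopen : IsOpen U := by
    rw [psi_isOpen]
    constructor
    · intro i hi
      rw [hpU i hi]
      refine (hfin x a hcon).subset ?_
      rintro b ⟨hb, hb'⟩
      refine ⟨hb, ?_⟩
      by_contra hc
      apply hb'
      rw [hU]
      exact Or.inr ⟨b, ⟨hb, not_le.1 hc⟩, rfl⟩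
    · intro h
      exfalso
      rw [hU] at h
      rcases h with h | ⟨b', -, e⟩
      · exact psi_pt_ne_inf L x h.symm
      · exact psi_base_ne_inf L b' e
  obtain ⟨z, hzU, hzA⟩ := mem_closure_iff.1 hx U hopen hxU
  rcases psi_cases L z with ⟨b, rfl⟩ | ⟨i, rfl⟩ | rfl
  · exact absurd (hA.1 b hzA) (not_le.2 (hbU b hzU).2)
  · have h1 := hA.2 i hzA
    rw [hpU i hzU] at h1
    exact absurd h1 (not_le.2 hcon)
  · rw [hU] at hzU
    rcases hzU with h | ⟨b', -, e⟩
    · exact psi_pt_ne_inf L x h.symm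
    · exact psi_base_ne_inf L b' e

end Pool.Agent.Helper332.SADSpace
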