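import Mathlib
import Pool.Agent.Helper332.SAD.SpaceDefs

set_option autoImplicit false

namespace Pool.Agent.Helper332.SADSpace

open Cardinal Set Topology


theorem isClopen_V {B C : Type} (X : C → Set B) (hX : ∀ i j, i ≠ j → (X i ∩ X j).Finite)
    (Y : C → Set B) (hY : ∀ i, Y i ⊆ X i ∧ (X i \ Y i).Finite) (i : C) :
    IsClopen (insert (Psi.pt X i) (Psi.base X '' Y i) : Set (Psi X)) := by
  have memb : ∀ b, Psi.base X b ∈ (insert (Psi.pt X i) (Psi.base X '' Y i) : Set (Psi X)) ↔
      b ∈ Y i := by
    intro b
    constructor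
    · rintro (h | ⟨b', hb', h⟩)
      · exact absurd h (psi_base_ne_pt X b i)
      · rw [psi_base_inj] at h
        exact h ▸ hb'
    · intro h
      exact Or.inr ⟨b, h, rfl⟩
  have memp : ∀ j, Psi.pt X j ∈ (insert (Psi.pt X i) (Psi.base X '' Y i) : Set (Psi X)) ↔
      j = i := by
    intro j
    constructor
    · rintro (h | ⟨b', hb', h⟩)
      · exact (psi_pt_inj X j i).1 h
      · exact absurd h (psi_base_ne_pt X b' j)
    · intro h
      subst h
      exact Or.inl rfl
  have memi : Psi.inf X ∉ (insert (Psi.pt X i) (Psi.base X '' Y i) : Set (Psi X)) := by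
    rintro (h | ⟨b', hb', h⟩)
    · exact psi_pt_ne_inf X i h.symm
    · exact psi_base_ne_inf X b' h
  constructor
  · rw [← isOpen_compl_iff, psi_isOpen]
    constructor
    · intro j hj
      have hj' : j ≠ i := fun h => hj ((memp j).2 h)
      refine (hX j i hj').subset ?_
      rintro b ⟨hb, hb'⟩
      have : b ∈ Y i := by
        by_contra h
        exact hb' fun h' => h ((memb b).1 h')
      exact ⟨hb, (hY i).1 this⟩
    · intro _
      refine ⟨{i}, ?_, ?_⟩
      · intro j hj
        have : j = i := by
          by_contra h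
          exact hj fun h' => h ((memp j).1 h')
        simp [this]
      · convert Set.finite_empty
        ext b
        simp only [Set.mem_setOf_eq, Finset.mem_singleton, forall_eq, Set.mem_empty_iff_false,
          iff_false, not_and, not_not]
        intro h
        have : b ∈ Y i := by
          by_contra h1
          exact h fun h' => h1 ((memb b).1 h')
        exact (hY i).1 this
  · rw [psi_isOpen]
    constructor
    · intro j hj
      have := (memp j).1 hj
      subst this
      refine (hY j).2.subset ?_
      rintro b ⟨hb, hb'⟩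
      exact ⟨hb, fun h => hb' ((memb b).2 h)⟩
    · intro h
      exact absurd h memi

theorem isClopen_base {B C : Type} (X : C → Set B) (b : B) :
    IsClopen ({Psi.base X b} : Set (Psi X)) := by
  constructor
  · rw [← isOpen_compl_iff, psi_isOpen]
    constructor
    · intro j _
      refine (Set.finite_singleton b).subset ?_
      rintro b' ⟨_, hb'⟩
      by_contra h
      exact hb' fun h' => h ((psi_base_inj X b' b).1 h')
    · intro _
      refine ⟨∅, ?_, ?_⟩
      · intro j hj
        exact absurd (fun h => psi_base_ne_pt X b j (h : Psi.pt X j = Psi.base X b).symm) hj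
      · refine (Set.finite_singleton b).subset ?_
        rintro b' ⟨hb', _⟩
        by_contra h
        exact hb' fun h' => h ((psi_base_inj X b' b).1 h')
  · rw [psi_isOpen]
    constructor
    · intro j hj
      exact absurd (hj : Psi.pt X j = Psi.base X b).symm (psi_base_ne_pt X b j)
    · intro h
      exact absurd (h : Psi.inf X = Psi.base X b).symm (psi_base_ne_inf X b)

/-- If the part of the family belonging to `S` can be made disjoint by removing finite sets, then
`S` embeds continuously into a `c₀`-space, all supports being finite. -/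
theorem emb_small {B C : Type} (X : C → Set B) (hX : ∀ i j, i ≠ j → (X i ∩ X j).Finite)
    (S : Set (Psi X)) (Y : C → Set B) (hY : ∀ i, Y i ⊆ X i ∧ (X i \ Y i).Finite)
    (hdis : ∀ i j, Psi.pt X i ∈ S → Psi.pt X j ∈ S → i ≠ j → ∀ b ∈ Y i, b ∉ Y j) :
    ∃ (Γ : Type) (f : S → (Γ → ℝ)), Continuous f ∧ Function.Injective f ∧
      (∀ x, (Function.support (f x)).Finite) ∧ ∀ x γ, |f x γ| ≤ 1 := by
  classical
  let W : C ⊕ B → Set (Psi X) := fun γ => match γ with
    | Sum.inl i => if Psi.pt X i ∈ S then (insert (Psi.pt X i) (Psi.base X '' Y i)) else ∅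
    | Sum.inr b => {Psi.base X b}
  have hW : ∀ γ, IsClopen (W γ) := by
    intro γ
    rcases γ with i | b
    · by_cases h : Psi.pt X i ∈ S
      · have : W (Sum.inl i) = (insert (Psi.pt X i) (Psi.base X '' Y i)) := by
          simp only [W, if_pos h]
        rw [this]
        exact isClopen_V X hX Y hY i
      · have : W (Sum.inl i) = ∅ := by
          simp only [W, if_neg h]
        rw [this]
        exact isClopen_empty
    · exact isClopen_base X b
  have hWb : ∀ i b, Psi.base X b ∈ W (Sum.inl i) → Psi.pt X i ∈ S ∧ b ∈ Y i := by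
    intro i b hb
    by_cases h : Psi.pt X i ∈ S
    · simp only [W, if_pos h] at hb
      rcases hb with hb | ⟨b', hb', h'⟩
      · exact absurd hb (psi_base_ne_pt X b i)
      · rw [psi_base_inj] at h'
        exact ⟨h, h' ▸ hb'⟩
    · simp only [W, if_neg h] at hb
      exact absurd hb (Set.notMem_empty _)
  have hWp : ∀ i j, Psi.pt X j ∈ W (Sum.inl i) → j = i := by
    intro i j hb
    by_cases h : Psi.pt X i ∈ S
    · simp only [W, if_pos h] at hb
      rcases hb with hb | ⟨b', hb', h'⟩
      · exact (psi_pt_inj X j i).1 hb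
      · exact absurd h' (psi_base_ne_pt X b' j)
    · simp only [W, if_neg h] at hb
      exact absurd hb (Set.notMem_empty _)
  have hWp' : ∀ i, Psi.pt X i ∈ S → Psi.pt X i ∈ W (Sum.inl i) := by
    intro i h
    simp only [W, if_pos h]
    exact Or.inl rfl
  have hWi : ∀ i, Psi.inf X ∉ W (Sum.inl i) := by
    intro i hb
    by_cases h : Psi.pt X i ∈ S
    · simp only [W, if_pos h] at hb
      rcases hb with hb | ⟨b', hb', h'⟩
      · exact psi_pt_ne_inf X i hb.symm
      · exact psi_base_ne_inf X b' h'
    · simp only [W, if_neg h] at hb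
      exact absurd hb (Set.notMem_empty _)
  have hR : ∀ b x, x ∈ W (Sum.inr b) ↔ x = Psi.base X b := by
    intro b x
    exact Iff.rfl
  have key : ∀ x y : Psi X, x ∈ S → y ∈ S →
      (∀ γ, (W γ).indicator (fun _ => (1 : ℝ)) x = (W γ).indicator (fun _ => (1 : ℝ)) y) →
      x = y := by
    intro x y hx hy h
    have h' : ∀ γ, x ∈ W γ ↔ y ∈ W γ := by
      intro γ
      have := h γ
      by_cases h1 : x ∈ W γ
      · by_cases h2 : y ∈ W γ
        · exact ⟨fun _ => h2, fun _ => h1⟩
        · rw [Set.indicator_of_mem h1, Set.indicator_of_notMem h2] at this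
          exact absurd this one_ne_zero
      · by_cases h2 : y ∈ W γ
        · rw [Set.indicator_of_notMem h1, Set.indicator_of_mem h2] at this
          exact absurd this.symm one_ne_zero
        · exact ⟨fun h => absurd h h1, fun h => absurd h h2⟩
    rcases psi_cases X x with ⟨b, rfl⟩ | ⟨i, rfl⟩ | rfl
    · exact ((h' (Sum.inr b)).1 rfl).symm
    · rcases psi_cases X y with ⟨b, rfl⟩ | ⟨j, rfl⟩ | rfl
      · exact ((h' (Sum.inr b)).2 rfl)
      · have := hWp i j ((h' (Sum.inl i)).1 (hWp' i hx))
        rw [this]
      · exact absurd ((h' (Sum.inl i)).1 (hWp' i hx)) (hWi i)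
    · rcases psi_cases X y with ⟨b, rfl⟩ | ⟨j, rfl⟩ | rfl
      · exact ((h' (Sum.inr b)).2 rfl)
      · exact absurd ((h' (Sum.inl j)).2 (hWp' j hy)) (hWi j)
      · rfl
  refine ⟨C ⊕ B, fun x γ => (W γ).indicator (fun _ => (1 : ℝ)) x.1, ?_, ?_, ?_, ?_⟩
  · refine continuous_pi fun γ => ?_
    have : Continuous ((W γ).indicator (fun _ => (1 : ℝ))) :=
      (continuous_const).indicator (fun a ha => by
        rw [(hW γ).frontier_eq] at ha
        exact absurd ha (Set.notMem_empty _))
    exact this.comp continuous_subtype_val
  · intro x y h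
    exact Subtype.ext (key x.1 y.1 x.2 y.2 fun γ => congrFun h γ)
  · intro x
    have hsub : ∃ F : Set (C ⊕ B), F.Finite ∧ ∀ γ, x.1 ∈ W γ → γ ∈ F := by
      rcases psi_cases X x.1 with ⟨b, hb⟩ | ⟨i, hi⟩ | hi
      · by_cases he : ∃ i, x.1 ∈ W (Sum.inl i)
        · obtain ⟨i, hi⟩ := he
          refine ⟨{Sum.inl i, Sum.inr b}, by simp, ?_⟩
          intro γ hγ
          rcases γ with j | b'
          · have h1 := hWb i b (hb ▸ hi)
            have h2 := hWb j b (hb ▸ hγ)
            have : j = i := by
              by_contra hne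
              exact hdis i j h1.1 h2.1 (fun h => hne h.symm) b h1.2 h2.2
            simp [this]
          · have : x.1 = Psi.base X b' := hγ
            rw [hb, psi_base_inj] at this
            simp [this]
        · refine ⟨{Sum.inr b}, by simp, ?_⟩
          intro γ hγ
          rcases γ with j | b'
          · exact absurd ⟨j, hγ⟩ he
          · have : x.1 = Psi.base X b' := hγ
            rw [hb, psi_base_inj] at this
            simp [this]
      · refine ⟨{Sum.inl i}, by simp, ?_⟩
        intro γ hγ
        rcases γ with j | b'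
        · have := hWp j i (hi ▸ hγ)
          simp [this]
        · have : x.1 = Psi.base X b' := hγ
          rw [hi] at this
          exact absurd this.symm (psi_base_ne_pt X b' i)
      · refine ⟨∅, by simp, ?_⟩
        intro γ hγ
        rcases γ with j | b'
        · exact absurd (hi ▸ hγ) (hWi j)
        · have : x.1 = Psi.base X b' := hγ
          rw [hi] at this
          exact absurd this.symm (psi_base_ne_inf X b')
    obtain ⟨F, hF, hF'⟩ := hsub
    refine hF.subset ?_
    intro γ hγ
    apply hF'
    by_contra h
    exact hγ (Set.indicator_of_notMem h _)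
  · intro x γ
    by_cases h : x.1 ∈ W γ
    · simp only [Set.indicator_of_mem h, abs_one, le_refl]
    · simp only [Set.indicator_of_notMem h, abs_zero, zero_le_one]

end Pool.Agent.Helper332.SADSpace
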