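import Mathlib
import Pool.Agent.Helper332.NRS.Defs

set_option autoImplicit false

namespace Pool.Agent.Helper332.NRS

open Cardinal Set


private theorem free_min {K : Type} [LinearOrder K] [WellFoundedLT K] (S : Set K)
    (hS : S.Nonempty) : ∃ m ∈ S, ∀ y ∈ S, m ≤ y := by
  obtain ⟨m, hm, h⟩ := (wellFounded_lt (α := K)).has_min S hS
  exact ⟨m, hm, fun y hy => not_lt.1 (h y hy)⟩

private theorem free_gamma {K : Type} [LinearOrder K] [WellFoundedLT K] (E C : Set K) (a b x : K)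
    (hC : ClubBelow a C) (hCE : ∀ c ∈ C, c < a → c ∉ E) (hx : x ∈ E) (hbx : b < x) (hxa : x < a) :
    ∃ c, ((c = b ∨ (c ∈ C ∧ b < c)) ∧ c < x) ∧
      ∀ d, (d = b ∨ (d ∈ C ∧ b < d)) → d < x → d ≤ c := by
  by_contra hcon
  push Not at hcon
  obtain ⟨u, hu, humin⟩ := free_min {u | ∀ d, (d = b ∨ (d ∈ C ∧ b < d)) → d < x → d ≤ u}
    ⟨x, fun d _ hd => hd.le⟩
  simp only [mem_ofPred_eq] at hu humin
  have hux : u ≤ x := humin x fun d _ hd => hd.le
  have hbu : b ≤ u := hu b (Or.inl rfl) hbx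
  have hnot : ¬ ((u = b ∨ (u ∈ C ∧ b < u)) ∧ u < x) := by
    intro h
    obtain ⟨d, hd1, hd2, hd3⟩ := hcon u h
    exact absurd (hu d hd1 hd2) (not_le.2 hd3)
  have hbu' : b < u := by
    rcases hbu.lt_or_eq with h | h
    · exact h
    · exact absurd ⟨Or.inl h.symm, h ▸ hbx⟩ hnot
  have huC : u ∈ C := by
    refine hC.2 u (hux.trans_lt hxa) ⟨b, hbu'⟩ fun y hy => ?_
    have h1 : max y b < u := max_lt hy hbu'
    by_contra h2
    push Not at h2
    have h3 := humin (max y b) (by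
      intro d hd hdx
      by_contra h4
      push Not at h4
      have hd' : d ∈ C := by
        rcases hd with h | h
        · exact absurd ((le_max_right y b).trans_lt h4) (by rw [h]; exact lt_irrefl _)
        · exact h.1
      have h5 := h2 d hd' ((le_max_left y b).trans_lt h4)
      have h6 : d = u := le_antisymm (hu d hd hdx) h5
      exact hnot ⟨Or.inr ⟨h6 ▸ hd', hbu'⟩, h6 ▸ hdx⟩)
    exact absurd h1 (not_lt.2 h3)
  rcases hux.lt_or_eq with h | h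
  · exact hnot ⟨Or.inr ⟨huC, hbu'⟩, h⟩
  · exact hCE u huC (h ▸ hxa) (h ▸ hx)

/-- A ladder system on a nonreflecting set is free below every point. -/
theorem free {K : Type} [LinearOrder K] [WellFoundedLT K] (E : Set K)
    (hnr : ∀ a, IsLim a → ∃ C : Set K, ClubBelow a C ∧ ∀ c ∈ C, c < a → c ∉ E)
    (L : K → Set K) (hlim : ∀ a ∈ E, IsLim a) (hL : ∀ a ∈ E, ∀ b ∈ L a, b < a)
    (hfin : ∀ a ∈ E, ∀ c < a, {b | b ∈ L a ∧ b ≤ c}.Finite) (a : K) :
    ∀ b ≤ a, ∃ g : K → K, (∀ x ∈ E, b < x → x ≤ a → b ≤ g x ∧ g x < x) ∧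
      ∀ x ∈ E, b < x → x ≤ a → ∀ y ∈ E, b < y → y ≤ a → x ≠ y →
        ∀ z ∈ L x, g x < z → z ∈ L y → g y < z → False := by
  classical
  induction a using WellFoundedLT.induction with
  | ind a ih =>
  intro b hb
  rcases hb.lt_or_eq with hba | hba
  swap
  · exact ⟨fun _ => b, fun x _ h1 h2 => absurd (h1.trans_le h2) (by rw [hba]; exact lt_irrefl _),
      fun x _ h1 h2 => absurd (h1.trans_le h2) (by rw [hba]; exact lt_irrefl _)⟩
  by_cases hlima : IsLim a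
  swap
  · have h1 : ∃ a' < a, ∀ c, a' < c → ¬ c < a := by
      by_contra h2
      push Not at h2
      exact hlima ⟨⟨b, hba⟩, fun y hy => h2 y hy⟩
    obtain ⟨a', ha', hno⟩ := h1
    have hle : ∀ x, x < a → x ≤ a' := fun x hx => not_lt.1 fun h => hno x h hx
    have haE : a ∉ E := fun h => hlima (hlim a h)
    have hle' : ∀ x ∈ E, x ≤ a → x ≤ a' := fun x hx hxa =>
      hle x (hxa.lt_of_ne fun h => haE (h ▸ hx))
    obtain ⟨g, hg1, hg2⟩ := ih a' ha' b (hle b hba)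
    exact ⟨g, fun x hx h1 h2 => hg1 x hx h1 (hle' x hx h2),
      fun x hx h1 h2 y hy h3 h4 => hg2 x hx h1 (hle' x hx h2) y hy h3 (hle' y hy h4)⟩
  obtain ⟨C, hC, hCE⟩ := hnr a hlima
  -- the function gamma
  have hgam : ∀ x, ∃ c, x ∈ E → b < x → x < a → ((c = b ∨ (c ∈ C ∧ b < c)) ∧ c < x) ∧
      ∀ d, (d = b ∨ (d ∈ C ∧ b < d)) → d < x → d ≤ c := by
    intro x
    by_cases h : x ∈ E ∧ b < x ∧ x < a
    · obtain ⟨c, hc⟩ := free_gamma E C a b x hC hCE h.1 h.2.1 h.2.2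
      exact ⟨c, fun _ _ _ => hc⟩
    · exact ⟨b, fun h1 h2 h3 => absurd ⟨h1, h2, h3⟩ h⟩
  choose γ hγ using hgam
  -- the function eta
  have heta : ∀ c, ∃ e, b ≤ c → c < a → e ∈ C ∧ c < e ∧ e < a ∧ ∀ y ∈ C, c < y → e ≤ y := by
    intro c
    by_cases h : b ≤ c ∧ c < a
    · obtain ⟨y0, hy0, hcy0, hy0a⟩ := hC.1 c h.2
      obtain ⟨e, ⟨he1, he2⟩, he3⟩ := free_min {y | y ∈ C ∧ c < y} ⟨y0, hy0, hcy0⟩
      exact ⟨e, fun _ _ => ⟨he1, he2, (he3 y0 ⟨hy0, hcy0⟩).trans_lt hy0a, fun y hy hcy =>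
        he3 y ⟨hy, hcy⟩⟩⟩
    · exact ⟨b, fun h1 h2 => absurd ⟨h1, h2⟩ h⟩
  choose η hη using heta
  have hG : ∀ c, ∃ g : K → K, b ≤ c → c < a →
      (∀ x ∈ E, c < x → x ≤ η c → c ≤ g x ∧ g x < x) ∧
      ∀ x ∈ E, c < x → x ≤ η c → ∀ y ∈ E, c < y → y ≤ η c → x ≠ y →
        ∀ z ∈ L x, g x < z → z ∈ L y → g y < z → False := by
    intro c
    by_cases h : b ≤ c ∧ c < a
    · obtain ⟨-, h2, h3, -⟩ := hη c h.1 h.2
      obtain ⟨g, hg⟩ := ih (η c) h3 c h2.le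
      exact ⟨g, fun _ _ => hg⟩
    · exact ⟨fun _ => b, fun h1 h2 => absurd ⟨h1, h2⟩ h⟩
  choose G hG using hG
  have hm : ∀ x, ∃ m, b < x → x < a → m < x ∧ (a ∈ E → ∀ z ∈ L a, z < x → z ≤ m) := by
    intro x
    by_cases h : b < x ∧ x < a ∧ a ∈ E ∧ ∃ z ∈ L a, z < x
    · obtain ⟨h1, h2, h3, z0, hz0, hz0x⟩ := h
      have hf : {z | z ∈ L a ∧ z < x}.Finite :=
        (hfin a h3 x h2).subset fun z hz => ⟨hz.1, hz.2.le⟩
      obtain ⟨m, hm1, hm2⟩ := hf.exists_maximalFor id _ ⟨z0, hz0, hz0x⟩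
      refine ⟨m, fun _ _ => ⟨hm1.2, fun _ z hz hzx => ?_⟩⟩
      by_contra hlt
      push Not at hlt
      exact absurd (hm2 ⟨hz, hzx⟩ hlt.le) (not_le.2 hlt)
    · refine ⟨b, fun h1 h2 => ⟨h1, fun h3 z hz hzx => ?_⟩⟩
      exact absurd ⟨h1, h2, h3, z, hz, hzx⟩ h
  choose m hm using hm
  -- facts on gamma
  have hγb : ∀ x ∈ E, b < x → x < a → b ≤ γ x := by
    intro x hx h1 h2
    exact (hγ x hx h1 h2).2 b (Or.inl rfl) h1
  have hγa : ∀ x ∈ E, b < x → x < a → γ x < a := fun x hx h1 h2 =>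
    (hγ x hx h1 h2).1.2.trans h2
  have hxη : ∀ x ∈ E, b < x → x < a → x ≤ η (γ x) := by
    intro x hx h1 h2
    by_contra h3
    push Not at h3
    obtain ⟨e1, e2, -, -⟩ := hη (γ x) (hγb x hx h1 h2) (hγa x hx h1 h2)
    have := (hγ x hx h1 h2).2 (η (γ x)) (Or.inr ⟨e1, (hγb x hx h1 h2).trans_lt e2⟩) h3
    exact absurd e2 (not_lt.2 this)
  have hGx : ∀ x ∈ E, b < x → x < a → γ x ≤ G (γ x) x ∧ G (γ x) x < x := fun x hx h1 h2 =>
    (hG (γ x) (hγb x hx h1 h2) (hγa x hx h1 h2)).1 x hx (hγ x hx h1 h2).1.2 (hxη x hx h1 h2)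
  let g : K → K := fun x => if x = a then b else max (G (γ x) x) (m x)
  have hga : g a = b := if_pos rfl
  have hgx : ∀ x, x < a → g x = max (G (γ x) x) (m x) := fun x hx => if_neg hx.ne
  have hg1 : ∀ x, x < a → G (γ x) x ≤ g x := fun x hx => by
    rw [hgx x hx]; exact le_max_left _ _
  have hg2 : ∀ x, x < a → m x ≤ g x := fun x hx => by
    rw [hgx x hx]; exact le_max_right _ _
  have main : ∀ x ∈ E, b < x → x ≤ a → ∀ y ∈ E, b < y → y ≤ a → x < y →
        ∀ z ∈ L x, g x < z → z ∈ L y → g y < z → False := by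
    intro x hx hbx hxa y hy hby hya hxy z hz hgz hz' hgz'
    have hxa' : x < a := hxy.trans_le hya
    have hzx : z < x := hL x hx z hz
    rcases hya.lt_or_eq with hya' | hya'
    · have hγle : γ x ≤ γ y := (hγ y hy hby hya').2 (γ x) (hγ x hx hbx hxa').1.1
        ((hγ x hx hbx hxa').1.2.trans hxy)
      rcases hγle.lt_or_eq with h | h
      · have h1 : x ≤ γ y := by
          by_contra h2
          push Not at h2
          exact absurd ((hγ x hx hbx hxa').2 (γ y) (hγ y hy hby hya').1.1 h2) (not_le.2 h)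
        exact absurd (hzx.trans_le (h1.trans ((hGx y hy hby hya').1.trans (hg1 y hya'))))
          (not_lt.2 hgz'.le)
      · have hy1 := (hγ y hy hby hya').1.2
        have hy2 := hxη y hy hby hya'
        have hy3 := (hg1 y hya').trans_lt hgz'
        rw [← h] at hy1 hy2 hy3
        exact (hG (γ x) (hγb x hx hbx hxa') (hγa x hx hbx hxa')).2 x hx (hγ x hx hbx hxa').1.2
          (hxη x hx hbx hxa') y hy hy1 hy2 hxy.ne z hz ((hg1 x hxa').trans_lt hgz) hz' hy3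
    · rw [hya'] at hz' hy
      have := (hm x hbx hxa').2 hy z hz' hzx
      exact absurd (this.trans (hg2 x hxa')) (not_le.2 hgz)
  refine ⟨g, ?_, ?_⟩
  · intro x hx hbx hxa
    rcases hxa.lt_or_eq with h | h
    · refine ⟨(hγb x hx hbx h).trans ((hGx x hx hbx h).1.trans (hg1 x h)), ?_⟩
      rw [hgx x h]
      exact max_lt (hGx x hx hbx h).2 (hm x hbx h).1
    · rw [h, hga]
      exact ⟨le_rfl, hba⟩
  · intro x hx hbx hxa y hy hby hya hne z hz h1 hz' h2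
    rcases lt_or_gt_of_ne hne with h | h
    · exact main x hx hbx hxa y hy hby hya h z hz h1 hz' h2
    · exact main y hy hby hya x hx hbx hxa h z hz' h2 hz h1

end Pool.Agent.Helper332.NRS
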