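import Mathlib
import Pool.Agent.Helper332.NRS.Defs

set_option autoImplicit false

namespace Pool.Agent.Helper332.NRS

open Cardinal Set


/-- A point of cofinality `ω` has a ladder. -/
theorem ladder {K : Type} [LinearOrder K] (a : K) (ha : CofOmega a) :
    ∃ L : Set K, (∀ b ∈ L, b < a) ∧ (∀ c < a, {b | b ∈ L ∧ b ≤ c}.Finite) ∧
      ∀ c < a, ∃ b ∈ L, c < b := by
  obtain ⟨s, h1, h2⟩ := ha
  have step : ∀ (n : ℕ) (x : {x : K // x < a}), ∃ y : {x : K // x < a},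
      x.1 < y.1 ∧ s n < y.1 := by
    intro n x
    obtain ⟨m, hm⟩ := h2 (max x.1 (s n)) (max_lt x.2 (h1 n))
    exact ⟨⟨s m, h1 m⟩, (le_max_left _ _).trans_lt hm, (le_max_right _ _).trans_lt hm⟩
  choose f hf1 hf2 using step
  obtain ⟨t, ht⟩ : ∃ t : ℕ → {x : K // x < a}, ∀ n, t (n + 1) = f n (t n) :=
    ⟨fun n => Nat.rec ⟨s 0, h1 0⟩ (fun n x => f n x) n, fun n => rfl⟩
  have hmono : StrictMono fun n => (t n).1 := by
    refine strictMono_nat_of_lt_succ fun n => ?_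
    rw [ht]
    exact hf1 n (t n)
  have hcof : ∀ c < a, ∃ n, c < (t n).1 := by
    intro c hc
    obtain ⟨n, hn⟩ := h2 c hc
    refine ⟨n + 1, ?_⟩
    rw [ht]
    exact hn.trans (hf2 n (t n))
  refine ⟨Set.range fun n => (t n).1, ?_, ?_, ?_⟩
  · rintro _ ⟨n, rfl⟩
    exact (t n).2
  · intro c hc
    obtain ⟨n, hn⟩ := hcof c hc
    refine ((Finset.range n).image fun m => (t m).1).finite_toSet.subset ?_
    rintro _ ⟨⟨m, rfl⟩, hm⟩
    simp only [Finset.coe_image, Finset.coe_range, Set.mem_image, Set.mem_Iio]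
    exact ⟨m, hmono.lt_iff_lt.1 (lt_of_le_of_lt hm hn), rfl⟩
  · intro c hc
    obtain ⟨n, hn⟩ := hcof c hc
    exact ⟨_, ⟨n, rfl⟩, hn⟩

end Pool.Agent.Helper332.NRS
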