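import Mathlib
import Pool.Agent.Helper332.SAD.SpaceDefs

set_option autoImplicit false

namespace Pool.Agent.Helper332.SADSpace

open Cardinal Set Topology


theorem fin_pts {B C : Type} (X : C → Set B) (g : Psi X → ℝ) (hg : Continuous g)
    (h0 : g (Psi.inf X) = 0) (ε : ℝ) (hε : 0 < ε) : {i | ε ≤ |g (Psi.pt X i)|}.Finite := by
  have hU : IsOpen {x : Psi X | |g x| < ε} := isOpen_lt hg.abs continuous_const
  obtain ⟨J, hJ, -⟩ := ((psi_isOpen X _).1 hU).2 (by simp [h0, hε])
  refine J.finite_toSet.subset fun i hi => ?_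
  exact hJ i fun h => not_le.2 (show |g (Psi.pt X i)| < ε from h) hi

end Pool.Agent.Helper332.SADSpace
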