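import Mathlib
import Pool.Agent.Helper332.SAD.SpaceDefs

set_option autoImplicit false

namespace Pool.Agent.Helper332.SADSpace

open Cardinal Set Topology


theorem near_pt {B C : Type} (X : C → Set B) (g : Psi X → ℝ) (hg : Continuous g) (i : C)
    (hi : (X i).Infinite) (ε : ℝ) (h : ε < |g (Psi.pt X i)|) :
    ∃ b ∈ X i, ε < |g (Psi.base X b)| := by
  have hU : IsOpen {x : Psi X | ε < |g x|} := isOpen_lt continuous_const hg.abs
  have h1 := ((psi_isOpen X _).1 hU).1 i h
  by_contra hcon
  push Not at hcon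
  apply hi
  refine h1.subset fun b hb => ⟨hb, ?_⟩
  intro h2
  exact absurd h2 (not_lt.2 (hcon b hb))

end Pool.Agent.Helper332.SADSpace
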