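import Mathlib
import Pool.Agent.Helper332.SAD.SpaceDefs
import Pool.Agent.Helper332.NRS.P_fin_pts
import Pool.Agent.Helper332.NRS.P_near_pt

set_option autoImplicit false

namespace Pool.Agent.Helper332.SADSpace

open Cardinal Set Topology


/-- If every regressive function has an uncountable fibre, the space is not Corson compact. -/
theorem not_corson {B C : Type} (X : C → Set B) (hinf : ∀ i, (X i).Infinite)
    (hpress : ∀ ξ : C → B, (∀ i, ξ i ∈ X i) → ∃ b, ¬ {i | ξ i = b}.Countable)
    (Γ : Type) (f : Psi X → (Γ → ℝ)) (hf : Continuous f) (hinj : Function.Injective f)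
    (hc : ∀ x, (Function.support (f x)).Countable) : False := by
  have h1 : ∀ i, ∃ γ, f (Psi.pt X i) γ ≠ f (Psi.inf X) γ := by
    intro i
    by_contra h
    push Not at h
    exact psi_pt_ne_inf X i (hinj (funext h))
  choose γ hγ using h1
  have h2 : ∀ i, ∃ n : ℕ, 1 / ((n:ℝ) + 1) < |f (Psi.pt X i) (γ i) - f (Psi.inf X) (γ i)| :=
    fun i => exists_nat_one_div_lt (abs_pos.mpr (sub_ne_zero.mpr (hγ i)))
  choose n hn using h2
  have hcont : ∀ γ0 : Γ, Continuous (fun x => f x γ0 - f (Psi.inf X) γ0) :=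
    fun γ0 => ((continuous_apply γ0).comp hf).sub continuous_const
  have h3 : ∀ i, ∃ b ∈ X i,
      1 / ((n i : ℝ) + 1) < |f (Psi.base X b) (γ i) - f (Psi.inf X) (γ i)| :=
    fun i => near_pt X (fun x => f x (γ i) - f (Psi.inf X) (γ i)) (hcont (γ i)) i (hinf i) _ (hn i)
  choose ξ hξ hξ2 using h3
  obtain ⟨b, hb⟩ := hpress ξ hξ
  apply hb
  have hQ : (Function.support (f (Psi.base X b)) ∪ Function.support (f (Psi.inf X))).Countable :=
    (hc _).union (hc _)
  have hsub : {i | ξ i = b} ⊆
      ⋃ q ∈ (Function.support (f (Psi.base X b)) ∪ Function.support (f (Psi.inf X))),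
        ⋃ m : ℕ, {i | ξ i = b ∧ γ i = q ∧ n i = m} := by
    intro i hi
    have hi' : ξ i = b := hi
    have h4 := hξ2 i
    rw [hi'] at h4
    have h5 : γ i ∈ Function.support (f (Psi.base X b)) ∪ Function.support (f (Psi.inf X)) := by
      by_contra h6
      rw [Set.mem_union, not_or] at h6
      obtain ⟨h7, h8⟩ := h6
      rw [Function.notMem_support] at h7 h8
      rw [h7, h8, sub_self, abs_zero] at h4
      have : (0:ℝ) < 1 / ((n i : ℝ) + 1) := by positivity
      linarith
    exact Set.mem_biUnion h5 (Set.mem_iUnion.mpr ⟨n i, hi', rfl, rfl⟩)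
  refine Set.Countable.mono hsub (hQ.biUnion fun q _ => Set.countable_iUnion fun m =>
    Set.Finite.countable ?_)
  refine (fin_pts X (fun x => f x q - f (Psi.inf X) q) (hcont q) (sub_self _)
    (1 / ((m:ℝ) + 1)) (by positivity)).subset ?_
  rintro i ⟨-, h6, h7⟩
  have h8 := hn i
  rw [h6, h7] at h8
  exact h8.le

end Pool.Agent.Helper332.SADSpace
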