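import Mathlib
import Pool.Agent.Helper332.NRS.Defs

set_option autoImplicit false

namespace Pool.Agent.Helper332.NRS

open Cardinal Set


/-- Pressing down. -/
theorem press {J K : Type} [LinearOrder K] [WellFoundedLT K]
    (hb : ∀ F : J → K, ∃ b, ∀ j, F j < b) (hs : ∀ a : K, ∃ F : J → K, ∀ b < a, ∃ j, F j = b)
    (hJ : Infinite J) (E : Set K) (hst : ∀ C : Set K, Club C → ∃ a ∈ C, a ∈ E) (ξ : K → K)
    (hξ : ∀ a ∈ E, ξ a < a) : ∃ b, ¬ {a | a ∈ E ∧ ξ a = b}.Countable := by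
  by_contra hcon
  push Not at hcon
  have hne : Nonempty K := by
    by_contra h
    rw [not_nonempty_iff] at h
    obtain ⟨a, _, _⟩ := hst ∅ ⟨fun b => isEmptyElim b, fun b => isEmptyElim b⟩
    exact isEmptyElim a
  let e : J → ℕ := Function.invFun (Infinite.natEmbedding J)
  have he : ∀ n, e (Infinite.natEmbedding J n) = n :=
    Function.leftInverse_invFun (Infinite.natEmbedding J).injective
  have hseq : ∀ f : ℕ → K, ∃ b, ∀ n, f n < b := by
    intro f
    obtain ⟨b, hb'⟩ := hb (fun j => f (e j))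
    refine ⟨b, fun n => ?_⟩
    have := hb' (Infinite.natEmbedding J n)
    simp only [he] at this
    exact this
  have hcb : ∀ S : Set K, S.Countable → ∃ β, ∀ a ∈ S, a < β := by
    intro S hS
    rcases S.eq_empty_or_nonempty with rfl | hSne
    · exact ⟨Classical.choice hne, fun a ha => absurd ha (Set.notMem_empty a)⟩
    · obtain ⟨f, rfl⟩ := hS.exists_eq_range hSne
      obtain ⟨b, hb'⟩ := hseq f
      exact ⟨b, by rintro _ ⟨n, rfl⟩; exact hb' n⟩
  choose β hβ using fun b => hcb _ (hcon b)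
  have hmax : ∀ x : K, ∃ y, x < y := by
    intro x
    obtain ⟨b, hb'⟩ := hseq (fun _ => x)
    exact ⟨b, hb' 0⟩
  have hnx : ∀ x : K, ∃ y, x < y ∧ ∀ b < x, β b < y := by
    intro x
    obtain ⟨F, hF⟩ := hs x
    obtain ⟨y1, hy1⟩ := hb (fun j => β (F j))
    obtain ⟨y2, hy2⟩ := hmax x
    refine ⟨max y1 y2, lt_of_lt_of_le hy2 (le_max_right _ _), fun b hbx => ?_⟩
    obtain ⟨j, rfl⟩ := hF b hbx
    exact lt_of_lt_of_le (hy1 j) (le_max_left _ _)
  choose nx hnx1 hnx2 using hnx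
  have hclub : Club {a : K | ∀ b < a, β b < a} := by
    refine ⟨fun x0 => ?_, fun b _ h x hx => ?_⟩
    · let xs : ℕ → K := fun n => Nat.rec (nx x0) (fun _ y => nx y) n
      have hx0 : xs 0 = nx x0 := rfl
      have hxs : ∀ n, xs (n + 1) = nx (xs n) := fun n => rfl
      have hS : {y : K | ∀ n, xs n < y}.Nonempty := hseq xs
      let u := WellFounded.min (wellFounded_lt (α := K)) _ hS
      have hu : ∀ n, xs n < u := WellFounded.min_mem (wellFounded_lt (α := K)) _ hS
      refine ⟨u, fun b hbu => ?_, (hnx1 x0).trans (hx0 ▸ hu 0)⟩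
      have h1 : ¬ b ∈ {y : K | ∀ n, xs n < y} := fun h =>
        WellFounded.not_lt_min (wellFounded_lt (α := K)) _ h hbu
      simp only [Set.mem_ofPred_eq, not_forall, not_lt] at h1
      obtain ⟨n, hn⟩ := h1
      have h2 : b < xs (n + 1) := lt_of_le_of_lt hn (hxs n ▸ hnx1 (xs n))
      have h3 : β b < xs (n + 2) := by
        rw [hxs (n + 1)]
        exact hnx2 _ b h2
      exact h3.trans (hu (n + 2))
    · obtain ⟨c, hc, hxc, hcb'⟩ := h x hx
      exact (hc x hxc).trans hcb'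
  obtain ⟨a, haC, haE⟩ := hst _ hclub
  have h1 : β (ξ a) < a := haC (ξ a) (hξ a haE)
  have h2 : a < β (ξ a) := hβ (ξ a) a ⟨haE, rfl⟩
  exact lt_asymm h1 h2

end Pool.Agent.Helper332.NRS
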