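import Mathlib
import Pool.Agent.Helper332.SAD.P_psi_compact
import Pool.Agent.Helper332.SAD.P_psi_t2
import Pool.Agent.Helper332.NRS.P_ladder
import Pool.Agent.Helper332.NRS.P_free
import Pool.Agent.Helper332.NRS.P_press
import Pool.Agent.Helper332.NRS.P_emb_small
import Pool.Agent.Helper332.NRS.P_closed_initial
import Pool.Agent.Helper332.NRS.P_not_corson

/-!
# The one-point compactification of the ladder system space on a nonreflecting stationary set
-/

set_option autoImplicit false

namespace Pool.Agent.Helper332.NRS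

open Cardinal Set
open Pool.Agent.Helper332.SADSpace (Psi psi_isOpen psi_cases psi_base_inj psi_pt_inj psi_base_ne_pt
  psi_base_ne_inf psi_pt_ne_inf psi_compact psi_t2 emb_small closed_initial not_corson)

/-- The hypothesis read in the universe: there are a set `J`, a well-ordered set `K`, a function `e`
from `J` onto the power set of `ℕ`, such that every function from `J` to `K` is bounded and every
proper initial segment of `K` is covered by the values of such a function, and a set `E ⊆ K` of
points of cofinality `ω` which is nonreflecting and stationary. (So `K` has the order type of the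
initial ordinal of the successor of the continuum.) -/
def NonreflectingStationary : Prop :=
  ∃ (J K : Type) (_ : LinearOrder K) (_ : WellFoundedLT K) (e : J → Set ℕ) (E : Set K),
    Function.Surjective e ∧ (∀ F : J → K, ∃ b, ∀ j, F j < b) ∧
    (∀ a : K, ∃ F : J → K, ∀ b < a, ∃ j, F j = b) ∧
    (∀ a ∈ E, CofOmega a) ∧
    (∀ a, IsLim a → ∃ C : Set K, ClubBelow a C ∧ ∀ c ∈ C, c < a → c ∉ E) ∧
    ∀ C : Set K, Club C → ∃ a ∈ C, a ∈ E

theorem isLim_of_cofOmega {K : Type} [LinearOrder K] {a : K} (h : CofOmega a) : IsLim a := by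
  obtain ⟨s, hs, hs'⟩ := h
  refine ⟨⟨s 0, hs 0⟩, fun b hb => ?_⟩
  obtain ⟨n, hn⟩ := hs' b hb
  exact ⟨s n, hn, hs n⟩

/-- the position of a point -/
def posPt {K : Type} (E : Set K) (k0 : K) : Pool.Agent.Helper332.SADSpace.Pt K E → K
  | .base b => b
  | .pt i => i
  | .inf => k0

/-- The space: a compact Hausdorff space which is not Corson compact, although every set of size at
most continuum has an Eberlein compact closure (with finite supports). -/
theorem space_of_nrs (h : NonreflectingStationary) :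
    ∃ (X : Type) (_ : TopologicalSpace X), CompactSpace X ∧ T2Space X ∧
      (∀ A : Set X, #A ≤ 𝔠 → ∃ (Γ : Type) (f : ↥(closure A) → (Γ → ℝ)), Continuous f ∧
        Function.Injective f ∧ (∀ x, (Function.support (f x)).Finite) ∧ ∀ x γ, |f x γ| ≤ 1) ∧
      ∀ (Γ : Type) (f : X → (Γ → ℝ)), Continuous f → Function.Injective f →
        (∀ x, (Function.support (f x)).Countable) → False := by
  classical
  obtain ⟨J, K, _, _, e, E, he, hb, hs, hcof, hnr, hst⟩ := h
  have hlad : ∀ a : K, ∃ L : Set K, CofOmega a → ((∀ b ∈ L, b < a) ∧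
      (∀ c < a, {b | b ∈ L ∧ b ≤ c}.Finite) ∧ ∀ c < a, ∃ b ∈ L, c < b) := by
    intro a
    by_cases ha : CofOmega a
    · obtain ⟨L, hL⟩ := ladder a ha
      exact ⟨L, fun _ => hL⟩
    · exact ⟨∅, fun h => absurd h ha⟩
  choose L hL using hlad
  have hlt : ∀ a ∈ E, ∀ b ∈ L a, b < a := fun a ha => (hL a (hcof a ha)).1
  have hfin : ∀ a ∈ E, ∀ c < a, {b | b ∈ L a ∧ b ≤ c}.Finite := fun a ha => (hL a (hcof a ha)).2.1
  have hcf : ∀ a ∈ E, ∀ c < a, ∃ b ∈ L a, c < b := fun a ha => (hL a (hcof a ha)).2.2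
  have hlim : ∀ a ∈ E, IsLim a := fun a ha => isLim_of_cofOmega (hcof a ha)
  let X : E → Set K := fun x => L x
  have had0 : ∀ x ∈ E, ∀ y ∈ E, x < y → (L x ∩ L y).Finite := by
    intro x hx y hy hxy
    exact (hfin y hy x hxy).subset fun b hb => ⟨hb.2, (hlt x hx b hb.1).le⟩
  have had : ∀ i j : E, i ≠ j → (X i ∩ X j).Finite := by
    intro i j hij
    have hij' : (i : K) ≠ j := fun h => hij (Subtype.ext h)
    rcases lt_or_gt_of_ne hij' with h1 | h1
    · exact had0 i i.2 j j.2 h1
    · rw [Set.inter_comm]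
      exact had0 j j.2 i i.2 h1
  have hinf : ∀ i : E, (X i).Infinite := by
    intro i hi
    have hne : (X i).Nonempty := by
      obtain ⟨b, hb'⟩ := (hlim i i.2).1
      obtain ⟨c, hc, _⟩ := hcf i i.2 b hb'
      exact ⟨c, hc⟩
    obtain ⟨m, hm, hmax⟩ := Set.exists_max_image (X i) id hi hne
    obtain ⟨c, hc, hmc⟩ := hcf i i.2 m (hlt i i.2 m hm)
    exact absurd (hmax c hc) (not_le.2 hmc)
  have hJ : Infinite J := by
    have : Infinite (Set ℕ) := inferInstance
    exact Infinite.of_surjective e he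
  refine ⟨Psi X, inferInstance, psi_compact X, psi_t2 X had, ?_, ?_⟩
  · intro A hA
    -- `A` is an image of `J`
    have hA' : #A ≤ #(Set ℕ) := by simpa using hA
    obtain ⟨φ⟩ := Cardinal.le_def _ _ |>.1 hA'
    -- the least element
    have hK : Nonempty K := by
      by_contra hK
      rw [not_nonempty_iff] at hK
      obtain ⟨a, ha, _⟩ := hst ∅ ⟨fun b => isEmptyElim b, fun b => isEmptyElim b⟩
      exact ha
    have hwf := (wellFounded_lt (α := K))
    let k0 : K := hwf.min Set.univ Set.univ_nonempty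
    have hk0 : ∀ x, ¬ x < k0 := fun x => hwf.not_lt_min (s := Set.univ) (Set.mem_univ x)
    -- bound for the points of `A`
    let pos : Psi X → K := fun x => posPt E k0 x
    obtain ⟨a, ha⟩ := hb fun j => if h : ∃ x : A, φ x = e j then pos h.choose else k0
    have hpos : ∀ x ∈ A, pos x < a := by
      intro x hx
      obtain ⟨j, hj⟩ := he (φ ⟨x, hx⟩)
      have h1 : ∃ x : A, φ x = e j := ⟨⟨x, hx⟩, hj.symm⟩
      have h2 := ha j
      rw [dif_pos h1] at h2
      have h3 : φ h1.choose = φ ⟨x, hx⟩ := h1.choose_spec.trans hj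
      have h4 : h1.choose = ⟨x, hx⟩ := φ.injective h3
      rwa [h4] at h2
    have hAa : (∀ b, Psi.base X b ∈ A → b ≤ a) ∧ ∀ x : E, Psi.pt X x ∈ A → (x : K) ≤ a :=
      ⟨fun b hb' => (hpos _ hb').le, fun x hx => (hpos _ hx).le⟩
    obtain ⟨g, hg, hg'⟩ := free E hnr L hlim hlt hfin a k0 (not_lt.1 (hk0 a))
    have hk : ∀ x ∈ E, k0 < x := by
      intro x hx
      obtain ⟨b, hb'⟩ := (hlim x hx).1
      exact (not_lt.1 (hk0 b)).trans_lt hb'
    obtain ⟨Γ, f, h1, h2, h3, h4⟩ := emb_small X had (closure A)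
      (fun i => if (i : K) ≤ a then {b | b ∈ L i ∧ g i < b} else L i) (by
        intro i
        by_cases hi : (i : K) ≤ a
        · simp only [hi, if_true]
          refine ⟨fun b hb' => hb'.1, ?_⟩
          refine (hfin i i.2 (g i) (hg i i.2 (hk i i.2) hi).2).subset ?_
          rintro b ⟨hb1, hb2⟩
          refine ⟨hb1, ?_⟩
          by_contra hc
          exact hb2 ⟨hb1, not_le.1 hc⟩
        · simp only [hi, if_false]
          exact ⟨subset_rfl, by simp [X]⟩) (by
        intro i j hi hj hij b hbi hbj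
        have hi' : (i : K) ≤ a := closed_initial E X (fun x => hfin x x.2) a A hAa i hi
        have hj' : (j : K) ≤ a := closed_initial E X (fun x => hfin x x.2) a A hAa j hj
        simp only [hi', hj', if_true] at hbi hbj
        exact hg' i i.2 (hk i i.2) hi' j j.2 (hk j j.2) hj' (fun h => hij (Subtype.ext h)) b
          hbi.1 hbi.2 hbj.1 hbj.2)
    exact ⟨Γ, f, h1, h2, h3, h4⟩
  · intro Γ f hf hinj hc
    refine not_corson X hinf (fun ξ hξ => ?_) Γ f hf hinj hc
    obtain ⟨b, hb'⟩ := press hb hs hJ E hst (fun a => if h : a ∈ E then ξ ⟨a, h⟩ else a)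
      (fun a ha => by
        simp only [ha, dif_pos]
        exact hlt a ha _ (hξ ⟨a, ha⟩))
    refine ⟨b, fun hcount => hb' ?_⟩
    refine (hcount.image Subtype.val).mono ?_
    rintro a ⟨ha, hab⟩
    refine ⟨⟨a, ha⟩, ?_, rfl⟩
    simpa [ha] using hab

end Pool.Agent.Helper332.NRS
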